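import Mathlib.Combinatorics.Hall.Basic
import Mathlib.Algebra.Order.BigOperators.Group.Finset
import Mathlib.Algebra.BigOperators.Ring.Finset
import Mathlib.Order.Interval.Finset.Nat
import Mathlib.Tactic.Linarith
import Mathlib.Tactic.Ring

/-! Disjoint intervals with both ends of one colour that cover almost the share of each colour. -/

namespace Pool.Agent.MP_7be75d_co.Cy

open Finset
open scoped Classical

theorem level (Φ : ℕ → ℕ) (D N M : ℕ) (hN : ∀ j, Φ j ≤ N * M) :
    ∃ j < D * N + 1, D * Φ (j + 1) ≤ D * Φ j + M := by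
  by_contra hc
  push Not at hc
  have : ∀ j ≤ D * N + 1, j * (M + 1) ≤ D * Φ j := by
    intro j
    induction j with
    | zero => simp
    | succ j ih =>
      intro hj
      have := ih (by omega)
      have := hc j (by omega)
      rw [Nat.succ_mul]; omega
  have h1 := this _ le_rfl
  have h2 := Nat.mul_le_mul_left D (hN (D * N + 1))
  nlinarith

theorem fiber_le (S : Finset ℕ) {B : ℕ} (hB : 0 < B) : S.card ≤ B * (S.image (· / B)).card :=
  card_le_mul_card_image S B fun b _ => by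
    refine le_trans (card_le_card (t := Ico (b * B) (b * B + B)) fun p hp => ?_) (by simp)
    have h := (mem_filter.1 hp).2
    have := Nat.div_mul_le_self p B
    have := Nat.lt_div_mul_add (a := p) hB
    rw [h] at *
    exact mem_Ico.2 ⟨by omega, by omega⟩

theorem blocks (c : ℕ) (J : ℕ → Finset ℕ) {B : ℕ} (hB : 0 < B)
    (hd : ∀ i < c, ∀ i' < c, i ≠ i' → Disjoint (J i) (J i')) : ∃ A : ℕ → Finset ℕ,
    (∀ i < c, A i ⊆ (J i).image (· / B) ∧ (A i).card = (J i).card / B) ∧
      ∀ i < c, ∀ i' < c, i ≠ i' → Disjoint (A i) (A i') := by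
  obtain ⟨f, f1, f2⟩ := (all_card_le_biUnion_card_iff_exists_injective
    (fun x : Σ i : Fin c, Fin ((J i).card / B) => (J x.1).image (· / B))).1 (by
      intro s
      have h1 : s ⊆ (s.image Sigma.fst).sigma fun _ => univ := fun x hx =>
        mem_sigma.2 ⟨mem_image_of_mem _ hx, mem_univ _⟩
      have h2 := card_le_card h1
      rw [card_sigma] at h2
      have h3 := fiber_le ((s.image Sigma.fst).biUnion fun i : Fin c => J i) hB
      rw [card_biUnion fun (i : Fin c) _ (j : Fin c) _ h => hd i i.2 j j.2 (Fin.val_ne_of_ne h),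
        biUnion_image, image_biUnion] at h3
      refine Nat.le_of_mul_le_mul_left (le_trans (Nat.mul_le_mul_left B h2) (le_trans ?_ h3)) hB
      rw [mul_sum]
      exact sum_le_sum fun i _ => by simpa using Nat.mul_div_le _ _)
  refine ⟨fun i => if h : i < c then univ.image fun x => f ⟨⟨i, h⟩, x⟩ else ∅,
    fun i hi => ?_, fun i hi i' hi' hne => ?_⟩
  · simp only [dif_pos hi]
    refine ⟨image_subset_iff.2 fun x _ => f2 _, ?_⟩
    exact (card_image_of_injective _ fun x y h => eq_of_heq (Sigma.mk.inj (f1 h)).2).trans (by simp)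
  · simp only [dif_pos hi, dif_pos hi']
    rw [disjoint_left]
    intro b h1 h2
    obtain ⟨x, -, rfl⟩ := mem_image.1 h1
    obtain ⟨y, -, e⟩ := mem_image.1 h2
    exact hne (congrArg (fun z => z.1.1) (f1 e)).symm

theorem col (c D : ℕ) (hD : 0 < D) : ∃ M, 0 < M ∧ 2 * D ≤ M ∧ ∀ J : ℕ → Finset ℕ,
    (∀ i < c, J i ⊆ range M) → (∀ i < c, ∀ i' < c, i ≠ i' → Disjoint (J i) (J i')) →
    ∃ (A : ℕ → Finset ℕ) (lo hi : ℕ → ℕ → ℕ),
      (∀ i < c, A i ⊆ range M ∧ D * (J i).card ≤ D * ∑ b ∈ A i, (hi i b - lo i b) + M ∧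
        ∀ b ∈ A i, lo i b ∈ J i ∧ hi i b ∈ J i ∧ lo i b < hi i b) ∧
      (∀ i < c, ∀ i' < c, i ≠ i' → Disjoint (A i) (A i')) ∧
      ∀ i < c, ∀ i' < c, ∀ b ∈ A i, ∀ b' ∈ A i', b < b' → hi i b < lo i' b' := by
  obtain ⟨R, hR⟩ : ∃ R, R = 4 * D := ⟨_, rfl⟩
  have R0 : 0 < R := by omega
  refine ⟨R ^ (R * c + 2), by positivity, ?_, fun J hJ hd => ?_⟩
  · exact le_trans (by omega) (Nat.le_self_pow (by omega) R)
  set M := R ^ (R * c + 2) with hM
  let Cs : ℕ → ℕ → Finset ℕ := fun B p => (range c).filter fun i => ∃ q ∈ J i, q / B = p / B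
  obtain ⟨j, hj, hΦ⟩ := level (fun j => ∑ p ∈ range M, (Cs (R ^ j) p).card) R c M fun j => by
    refine le_trans (sum_le_card_nsmul _ _ c fun p _ => (card_filter_le _ _).trans (by simp)) ?_
    simp [mul_comm]
  obtain ⟨r, hr⟩ : ∃ r, r = R ^ j := ⟨_, rfl⟩
  have r0 : 0 < r := by rw [hr]; positivity
  simp only [pow_succ, ← hr] at hΦ
  obtain ⟨m, hm⟩ : ∃ m, M = r * R * (R * m) :=
    ⟨R ^ (R * c - j), by rw [hM, hr, ← pow_succ, ← pow_succ', ← pow_add]; congr 1; omega⟩
  have m0 : 0 < m := Nat.pos_of_ne_zero fun h => by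
    have : 0 < M := by positivity
    simp [h] at hm; omega
  set B := r * R with hB
  have B0 : 0 < B := by positivity
  obtain ⟨A, a1, a2⟩ := blocks c J B0 hd
  have ex : ∀ i b, ∃ lo hi, i < c → b ∈ A i → (lo ∈ J i ∧ lo / B = b) ∧ (hi ∈ J i ∧ hi / B = b) ∧
      ∀ q ∈ J i, q / B = b → lo ≤ q ∧ q ≤ hi := by
    intro i b
    by_cases h : ((J i).filter fun q => q / B = b).Nonempty
    · refine ⟨min' _ h, max' _ h, fun _ _ => ⟨mem_filter.1 (min'_mem _ h),
        mem_filter.1 (max'_mem _ h), fun q h1 h2 => ?_⟩⟩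
      have : q ∈ (J i).filter fun q => q / B = b := mem_filter.2 ⟨h1, h2⟩
      exact ⟨min'_le _ q this, le_max' _ q this⟩
    · refine ⟨0, 0, fun h1 h2 => absurd ?_ h⟩
      obtain ⟨q, h3, h4⟩ := mem_image.1 ((a1 i h1).1 h2)
      exact ⟨q, mem_filter.2 ⟨h3, h4⟩⟩
  choose lo hi hx using ex
  have bl : ∀ i < c, ∀ b ∈ A i, b < R * m := fun i h b hb => by
    rw [← (hx i b h hb).1.2, Nat.div_lt_iff_lt_mul B0, mul_comm, ← hm]
    exact mem_range.1 (hJ i h (hx i b h hb).1.1)
  refine ⟨fun i => (A i).filter fun b => lo i b < hi i b, lo, hi, fun i h => ⟨fun b hb => ?_, ?_,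
    fun b hb => ?_⟩, fun i h i' h' hne => (a2 i h i' h' hne).mono (filter_subset _ _)
      (filter_subset _ _), fun i h i' h' b hb b' hb' hlt => ?_⟩
  · exact mem_range.2 ((bl i h b (mem_filter.1 hb).1).trans_le (hm ▸ Nat.le_mul_of_pos_left _ B0))
  · rw [sum_filter_of_ne fun b _ h => by omega]
    let Bad := (range M).filter fun p => i ∉ Cs r p ∧ i ∈ Cs B p
    have s1 : ∑ p ∈ range M, (Cs r p).card + Bad.card ≤ ∑ p ∈ range M, (Cs B p).card := by
      rw [card_filter, ← sum_add_distrib]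
      refine sum_le_sum fun p _ => ?_
      have : Cs r p ⊆ Cs B p := fun k hk => by
        obtain ⟨h1, q, h2, h3⟩ := mem_filter.1 hk
        exact mem_filter.2 ⟨h1, q, h2, by
          rw [hB, ← Nat.div_div_eq_div_mul, ← Nat.div_div_eq_div_mul, h3]⟩
      split_ifs with h1
      · exact card_lt_card ⟨this, fun hc => h1.1 (hc h1.2)⟩
      · exact card_le_card this
    have s2 : ((A i).biUnion fun b => Ico (b * B) (b * B + B)) ⊆
        Bad ∪ (A i).biUnion fun b => Ico (lo i b - r) (hi i b + r) := by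
      intro p hp
      obtain ⟨b, hb, hp⟩ := mem_biUnion.1 hp
      rw [mem_Ico] at hp
      have e : p / B = b := Nat.div_eq_of_lt_le hp.1 (by rw [Nat.succ_mul]; exact hp.2)
      by_cases h1 : i ∈ Cs r p
      · obtain ⟨-, q, h2, h3⟩ := mem_filter.1 h1
        have := (hx i b h hb).2.2 q h2 (by
          rw [← e, hB, ← Nat.div_div_eq_div_mul, ← Nat.div_div_eq_div_mul, h3])
        have := Nat.div_mul_le_self p r
        have := Nat.lt_div_mul_add (a := p) r0
        have := Nat.div_mul_le_self q r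
        have := Nat.lt_div_mul_add (a := q) r0
        rw [h3] at *
        exact mem_union_right _ (mem_biUnion.2 ⟨b, hb, mem_Ico.2 ⟨by omega, by omega⟩⟩)
      · refine mem_union_left _ (mem_filter.2 ⟨mem_range.2 ?_, h1, mem_filter.2
          ⟨mem_range.2 h, _, (hx i b h hb).1.1, (hx i b h hb).1.2.trans e.symm⟩⟩)
        have := Nat.mul_le_mul_right B (Nat.succ_le_of_lt (bl i h b hb))
        rw [Nat.succ_mul, mul_comm (R * m), ← hm] at this
        omega
    have s3 := (card_le_card s2).trans (card_union_le _ _)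
    rw [card_biUnion fun b _ b' _ hne => disjoint_left.2 fun p h1 h2 => hne (by
      rw [mem_Ico] at h1 h2
      rw [← Nat.div_eq_of_lt_le h1.1 (by rw [Nat.succ_mul]; exact h1.2),
        ← Nat.div_eq_of_lt_le h2.1 (by rw [Nat.succ_mul]; exact h2.2)])] at s3
    have s4 : ((A i).biUnion fun b => Ico (lo i b - r) (hi i b + r)).card ≤
        ∑ b ∈ A i, (hi i b - lo i b) + (A i).card * (2 * r) := by
      rw [← sum_const_nat (s := A i) (f := fun _ => 2 * r) fun _ _ => rfl, ← sum_add_distrib]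
      exact card_biUnion_le.trans (sum_le_sum fun b _ => by rw [Nat.card_Ico]; omega)
    rw [sum_const_nat (m := B) fun _ _ => by simp] at s3
    have s5 := Nat.lt_div_mul_add (a := (J i).card) B0
    have s6 := (Nat.div_mul_le_self (J i).card B).trans (card_le_card (hJ i h))
    rw [card_range] at s6
    rw [← (a1 i h).2] at s5 s6
    have s7 : R * B ≤ M := by rw [hm, mul_comm]; exact Nat.mul_le_mul_left _ (by nlinarith)
    have s8 : R * Bad.card ≤ M := by nlinarith
    have s9 : R * ((A i).card * (2 * r)) = 2 * ((A i).card * B) := by rw [hB]; ring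
    have s10 := Nat.mul_le_mul_left R (show (J i).card ≤ ∑ b ∈ A i, (hi i b - lo i b) +
      (A i).card * (2 * r) + Bad.card + B by omega)
    simp only [mul_add] at s10
    have : R * (J i).card ≤ R * ∑ b ∈ A i, (hi i b - lo i b) + 4 * M := by omega
    rw [hR, mul_assoc, mul_assoc] at this
    omega
  · obtain ⟨h1, h2⟩ := mem_filter.1 hb
    exact ⟨(hx i b h h1).1.1, (hx i b h h1).2.1.1, h2⟩
  · refine Nat.lt_of_div_lt_div (c := B) ?_
    rwa [(hx i b h (mem_filter.1 hb).1).2.1.2, (hx i' b' h' (mem_filter.1 hb').1).1.2]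

end Pool.Agent.MP_7be75d_co.Cy
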