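import Mathlib.Combinatorics.SimpleGraph.CycleGraph

/-! Disjoint unions of cycles. -/

namespace Pool.Agent.MP_7be75d_co

/-- The disjoint union of the cycle graphs of lengths `ℓ 0, …, ℓ (c - 1)`: two vertices are adjacent
iff they lie in the same copy and are adjacent in the cycle graph of that copy. -/
def cycles {c : ℕ} (ℓ : Fin c → ℕ) : SimpleGraph (Σ i, Fin (ℓ i)) where
  Adj x y := ∃ (i : Fin c) (a b : Fin (ℓ i)), x = ⟨i, a⟩ ∧ y = ⟨i, b⟩ ∧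
    (SimpleGraph.cycleGraph (ℓ i)).Adj a b
  symm := ⟨fun _ _ ⟨i, a, b, h1, h2, h3⟩ => ⟨i, b, a, h2, h1, h3.symm⟩⟩
  loopless := ⟨fun _ ⟨_, _, _, h1, h2, h3⟩ =>
    h3.ne (eq_of_heq (Sigma.mk.inj (h1.symm.trans h2)).2)⟩

end Pool.Agent.MP_7be75d_co
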