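import Pool.Agent.MP_7be75d_co.PoS

/-! Exact tree-width duality: tree-width at least `k` gives a touching haven of order `k + 1`. -/

namespace Pool.Agent.MP_7be75d_co.Cy

open Finset
open scoped Classical

variable {V : Type} [Fintype V] {G : SimpleGraph V} {k : ℕ}

/-- The neighbours of `W` outside `W`. -/
noncomputable def nbd (G : SimpleGraph V) (W : Finset V) : Finset V :=
  univ.filter fun v => v ∉ W ∧ ∃ w ∈ W, G.Adj w v

theorem mem_nbd {W : Finset V} {v : V} : v ∈ nbd G W ↔ v ∉ W ∧ ∃ w ∈ W, G.Adj w v := by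
  simp [nbd]

/-- Two sets meet or are joined by an edge. -/
def Near (G : SimpleGraph V) (X Y : Finset V) : Prop := ∃ x ∈ X, ∃ y ∈ Y, x = y ∨ G.Adj x y

omit [Fintype V] in
theorem Near.mono {X Y X' Y' : Finset V} (h : Near G X Y) (h1 : X ⊆ X') (h2 : Y ⊆ Y') :
    Near G X' Y' := by
  obtain ⟨x, hx, y, hy, h⟩ := h
  exact ⟨x, h1 hx, y, h2 hy, h⟩

omit [Fintype V] in
theorem Near.symm {X Y : Finset V} (h : Near G X Y) : Near G Y X := by
  obtain ⟨x, hx, y, hy, h⟩ := h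
  exact ⟨y, hy, x, hx, h.imp Eq.symm fun h => h.symm⟩

/-- Decompositions with bags of size at most `k` whose remaining parts belong to `A`. -/
inductive Dc (G : SimpleGraph V) (k : ℕ) (A : Finset V → Prop) : Finset V → Prop
  | leaf (W : Finset V) : A W → Dc G k A W
  | un (W1 W2 : Finset V) : Dc G k A W1 → Dc G k A W2 → ¬ Near G W1 W2 → Dc G k A (W1 ∪ W2)
  | mv (W R : Finset V) : R ⊆ W → (nbd G W ∪ R).card ≤ k → Dc G k A (W \ R) → Dc G k A W

theorem nbd_left {W1 W2 : Finset V} (h : ¬ Near G W1 W2) : nbd G W1 ⊆ nbd G (W1 ∪ W2) := by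
  intro v hv
  obtain ⟨h1, w, h2, h3⟩ := mem_nbd.1 hv
  refine mem_nbd.2 ⟨fun hc => ?_, w, mem_union_left _ h2, h3⟩
  exact (mem_union.1 hc).elim h1 fun hc => h ⟨w, h2, v, hc, Or.inr h3⟩

theorem nbd_sdiff {W R : Finset V} : nbd G (W \ R) ⊆ nbd G W ∪ R := by
  intro v hv
  obtain ⟨h1, w, h2, h3⟩ := mem_nbd.1 hv
  by_cases h : v ∈ R
  · exact mem_union_right _ h
  · exact mem_union_left _ (mem_nbd.2 ⟨fun hc => h1 (mem_sdiff.2 ⟨hc, h⟩), w, (mem_sdiff.1 h2).1, h3⟩)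

theorem Dc.rd {W : Finset V} (h : Dc G k (fun W => W = ∅) W) :
    ∀ X : Finset V, nbd G W ⊆ X → Disjoint X W → X.card ≤ k → RD G k (X ∪ W) X := by
  induction h with
  | leaf W h => subst h; intro X _ _ h; simpa using RD.single (G := G) h
  | un W1 W2 _ _ hn i1 i2 =>
    intro X h1 h2 h3
    rw [disjoint_union_right] at h2
    have := (i1 X ((nbd_left hn).trans h1) h2.1 h3).merge
      (i2 X ((nbd_left fun h => hn h.symm).trans (by rwa [union_comm])) h2.2 h3) ?_ ?_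
    · rwa [union_union_union_comm, union_self] at this
    · intro v a b
      rcases mem_union.1 a with a | a
      · exact ⟨a, a⟩
      rcases mem_union.1 b with b | b
      · exact ⟨b, b⟩
      · exact absurd ⟨v, a, v, b, Or.inl rfl⟩ hn
    · intro u a v b huv
      rcases mem_union.1 a with a | a
      · exact Or.inl (mem_union_left _ a)
      rcases mem_union.1 b with b | b
      · exact Or.inr (mem_union_left _ b)
      · exact absurd ⟨u, a, v, b, Or.inr huv⟩ hn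
  | mv W R hR hk _ ih =>
    intro X h1 h2 h3
    have e : (nbd G W ∪ R) ∪ (W \ R) = nbd G W ∪ W := by
      rw [union_assoc, union_sdiff_of_subset hR]
    have := (RD.single (G := G) h3).merge (ih (nbd G W ∪ R) nbd_sdiff (by
      rw [disjoint_union_left]
      exact ⟨disjoint_left.2 fun v a b => (mem_nbd.1 a).1 (mem_sdiff.1 b).1, disjoint_sdiff⟩) hk)
      ?_ ?_
    · rwa [e, ← union_assoc, union_eq_left.2 h1] at this
    · intro v a b
      rw [e] at b
      exact ⟨a, mem_union_left _ ((mem_union.1 b).resolve_right (disjoint_left.1 h2 a))⟩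
    · intro u a v b huv
      rw [e] at b ⊢
      rcases mem_union.1 b with b | b
      · exact Or.inr (h1 b)
      · exact Or.inl (mem_union_left _ (mem_nbd.2 ⟨disjoint_left.1 h2 a, v, b, huv.symm⟩))

variable {A : Finset V → Prop}

/-- The part outside `W` and its neighbourhood is decomposed. -/
def Ctx (G : SimpleGraph V) (k : ℕ) (A : Finset V → Prop) (W : Finset V) : Prop :=
  Dc G k A (univ \ (W ∪ nbd G W))

theorem ctx_step {W Y : Finset V} (h1 : nbd G W ⊆ Y) (h2 : Y.card ≤ k) (h3 : Disjoint Y W)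
    (h : Dc G k A (univ \ (W ∪ Y))) : Ctx G k A W := by
  refine Dc.mv _ (Y \ nbd G W) (fun v hv => ?_) (le_trans (card_le_card ?_) h2) ?_
  · simp only [mem_sdiff, mem_union, mem_univ, true_and, not_or] at hv ⊢
    exact ⟨disjoint_left.1 h3 hv.1, hv.2⟩
  · refine union_subset (fun v hv => h1 ?_) sdiff_subset
    obtain ⟨a, w, b, c⟩ := mem_nbd.1 hv
    simp only [mem_sdiff, mem_union, mem_univ, true_and, not_or, not_and, not_not] at a b
    by_cases hW : v ∈ W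
    · exact absurd (mem_nbd.2 ⟨b.1, v, hW, c.symm⟩) b.2
    · exact a hW
  · have e : (univ \ (W ∪ nbd G W)) \ (Y \ nbd G W) = univ \ (W ∪ Y) := by
      ext v
      have := @h1 v
      simp only [mem_sdiff, mem_union, mem_univ, true_and]
      tauto
    rwa [e]

theorem ctx_un {W1 W2 : Finset V} (hn : ¬ Near G W1 W2) (hk : (nbd G (W1 ∪ W2)).card ≤ k)
    (h2 : Dc G k A W2) (h : Ctx G k A (W1 ∪ W2)) : Ctx G k A W1 := by
  refine ctx_step (nbd_left hn) hk
    (disjoint_left.2 fun v a b => (mem_nbd.1 a).1 (mem_union_left _ b)) ?_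
  have e : univ \ (W1 ∪ nbd G (W1 ∪ W2)) = W2 ∪ univ \ (W1 ∪ W2 ∪ nbd G (W1 ∪ W2)) := by
    ext v
    have a : v ∈ W2 → v ∉ W1 := fun a b => hn ⟨v, b, v, a, Or.inl rfl⟩
    have b : v ∈ W2 → v ∉ nbd G (W1 ∪ W2) := fun a b => (mem_nbd.1 b).1 (mem_union_right _ a)
    simp only [mem_sdiff, mem_union, mem_univ, true_and]
    tauto
  rw [e]
  refine Dc.un _ _ h2 h ?_
  rintro ⟨x, hx, y, hy, hxy⟩
  have hy := (mem_sdiff.1 hy).2
  rw [mem_union, not_or] at hy
  rcases hxy with rfl | hxy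
  · exact hy.1 (mem_union_right _ hx)
  · exact hy.2 (mem_nbd.2 ⟨hy.1, x, mem_union_right _ hx, hxy⟩)

theorem reroot {X W : Finset V} (hX : X.Nonempty) (h : Dc G k (fun W => A W ∨ W = X) W) :
    (nbd G W).card ≤ k →
      Dc G k A W ∨ (X ⊆ W ∧ (nbd G X).card ≤ k ∧ (Ctx G k A W → Ctx G k A X)) := by
  induction h with
  | leaf W h =>
    intro hk
    rcases h with h | rfl
    · exact Or.inl (Dc.leaf _ h)
    · exact Or.inr ⟨subset_rfl, hk, id⟩
  | un W1 W2 _ _ hn i1 i2 =>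
    intro hk
    have hn' : ¬ Near G W2 W1 := fun h => hn h.symm
    have hk' : (nbd G (W2 ∪ W1)).card ≤ k := by rwa [union_comm]
    rcases i1 ((card_le_card (nbd_left hn)).trans hk) with a | a <;>
      rcases i2 ((card_le_card (nbd_left hn')).trans hk') with b | b
    · exact Or.inl (Dc.un _ _ a b hn)
    · exact Or.inr ⟨b.1.trans subset_union_right, b.2.1,
        fun h => b.2.2 (ctx_un hn' hk' a (by rwa [union_comm]))⟩
    · exact Or.inr ⟨a.1.trans subset_union_left, a.2.1, fun h => a.2.2 (ctx_un hn hk b h)⟩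
    · obtain ⟨x, hx⟩ := hX
      exact absurd ⟨x, a.1 hx, x, b.1 hx, Or.inl rfl⟩ hn
  | mv W R hR hk _ ih =>
    intro _
    rcases ih ((card_le_card nbd_sdiff).trans hk) with a | a
    · exact Or.inl (Dc.mv _ _ hR hk a)
    · refine Or.inr ⟨a.1.trans sdiff_subset, a.2.1, fun h => a.2.2 (ctx_step nbd_sdiff hk ?_ ?_)⟩
      · rw [disjoint_union_left]
        exact ⟨disjoint_left.2 fun v a b => (mem_nbd.1 a).1 (mem_sdiff.1 b).1, disjoint_sdiff⟩
      · rwa [union_comm (nbd G W), ← union_assoc, sdiff_union_of_subset hR]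

theorem Dc.trim (hA : ∀ W W', A W → W' ⊆ W → A W') {Xb S O W : Finset V} {P : V → Finset V}
    (hO : nbd G O ⊆ S) (h1 : ∀ s ∈ S, Conn G (P s) ∧ s ∈ P s ∧ Disjoint (P s) O ∧ ∃ a ∈ Xb, a ∈ P s)
    (h2 : ∀ s ∈ S, ∀ s' ∈ S, s ≠ s' → Disjoint (P s) (P s')) (h : Dc G k A W) :
    Disjoint W Xb → Dc G k A (W ∩ O) := by
  induction h with
  | leaf W h => exact fun _ => Dc.leaf _ (hA _ _ h inter_subset_left)
  | un W1 W2 _ _ hn i1 i2 =>
    intro hd
    rw [disjoint_union_left] at hd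
    rw [union_inter_distrib_right]
    exact Dc.un _ _ (i1 hd.1) (i2 hd.2) fun h => hn (h.mono inter_subset_left inter_subset_left)
  | mv W R hR hk _ ih =>
    intro hd
    refine Dc.mv _ (R ∩ O) (inter_subset_inter hR subset_rfl) ?_ ?_
    · have s1 : nbd G (W ∩ O) ∪ R ∩ O ⊆ (nbd G W ∪ R) ∩ O ∪
          S.filter fun s => ¬ Disjoint (P s) ((nbd G W ∪ R) \ O) := by
        refine union_subset (fun v hv => ?_)
          ((inter_subset_inter subset_union_right subset_rfl).trans subset_union_left)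
        obtain ⟨a, w, b, c⟩ := mem_nbd.1 hv
        obtain ⟨b1, b2⟩ := mem_inter.1 b
        by_cases hv0 : v ∈ O
        · exact mem_union_left _ (mem_inter.2 ⟨mem_union_left _
            (mem_nbd.2 ⟨fun hc => a (mem_inter.2 ⟨hc, hv0⟩), w, b1, c⟩), hv0⟩)
        have hS : v ∈ S := hO (mem_nbd.2 ⟨hv0, w, b2, c⟩)
        obtain ⟨p1, p2, p3, x, p4, p5⟩ := h1 v hS
        refine mem_union_right _ (mem_filter.2 ⟨hS, not_disjoint_iff.2 ?_⟩)
        by_cases hW : v ∈ W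
        · obtain ⟨y, z, q1, q2, -, q4, q5⟩ := p1.exit p2 hW p5 (disjoint_right.1 hd p4)
          exact ⟨z, q4, mem_sdiff.2 ⟨mem_union_left _ (mem_nbd.2 ⟨q2, y, q1, q5⟩),
            disjoint_left.1 p3 q4⟩⟩
        · exact ⟨v, p2, mem_sdiff.2 ⟨mem_union_left _ (mem_nbd.2 ⟨hW, w, b1, c⟩), hv0⟩⟩
      have s2 := (card_le_card s1).trans (card_union_le _ _)
      have s3 := card_meet_le (L := P) S ((nbd G W ∪ R) \ O) h2
      have s4 := card_sdiff_add_card_inter (nbd G W ∪ R) O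
      omega
    · have e : (W ∩ O) \ (R ∩ O) = (W \ R) ∩ O := by
        ext v
        simp only [mem_sdiff, mem_inter]
        tauto
      rw [e]
      exact ih (hd.mono_left sdiff_subset)

theorem half {Xb Yb S : Finset V} (hS : ¬ Joined G univ Xb Yb S)
    (hmin : ∀ Z : Finset V, Z.card < S.card → Joined G univ Xb Yb Z) :
    ∃ P : V → Finset V, (∀ s ∈ S, Conn G (P s) ∧ s ∈ P s ∧ (∃ a ∈ Xb, a ∈ P s) ∧
      ∀ z ∈ P s, z ∉ S → ∃ a ∈ Xb, a ∈ univ \ S ∧ R G (univ \ S) a z) ∧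
      ∀ s ∈ S, ∀ s' ∈ S, s ≠ s' → Disjoint (P s) (P s') := by
  obtain ⟨Q, hQ, hQ'⟩ := menger_from (G := G) (U := univ) (B := Xb) (fun s : S => s.1) (by
    intro Z hZ
    rw [Fintype.card_coe] at hZ
    obtain ⟨a, ha, b, hb, h1, h2⟩ := hmin Z hZ
    have key : ∃ s ∈ S, R G (univ \ Z) a s := by
      by_contra hc
      push Not at hc
      have h3 : a ∉ S := fun h => hc a h R.refl
      refine hS ⟨a, ha, b, hb, by simpa using h3, ?_⟩
      refine (h2.ind (P := fun v => R G (univ \ S) a v ∧ v ∉ S) ⟨R.refl, h3⟩ ?_).1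
      intro x y h4 h5 h6 h7 h8
      have h9 : y ∉ S := fun h => hc y h (h4.tail h6 h7 h8)
      exact ⟨h5.1.tail h6 (by simpa using h5.2) (by simpa using h9), h9⟩
    obtain ⟨s, h3, h4⟩ := key
    exact ⟨s, mem_image.2 ⟨⟨s, h3⟩, mem_univ _, rfl⟩, a, ha, h4.mem h1, h4.symm⟩)
  choose P p1 p2 p3 p4 p5 using fun s : S => trim (P := S) (hQ.conn s) (hQ.right s) (hQ' s)
    (fun x hx hxS => by
      by_contra hc
      exact disjoint_left.1 (hQ.disj s ⟨x, hxS⟩ fun e => hc (congrArg Subtype.val e).symm) hx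
        (hQ' ⟨x, hxS⟩))
  refine ⟨fun s => if h : s ∈ S then P ⟨s, h⟩ else ∅, fun s hs => ?_, fun s hs s' hs' hne => ?_⟩
  · simp only [dif_pos hs]
    refine ⟨p2 _, p4 ⟨s, hs⟩, p3 _, fun z hz hzS => ?_⟩
    obtain ⟨a, a1, a2, a3⟩ := p5 _ z hz fun e => hzS (e ▸ hs)
    exact ⟨a, a1, sdiff_subset_sdiff (subset_univ _) subset_rfl a2,
      a3.mono (sdiff_subset_sdiff (subset_univ _) subset_rfl)⟩
  · simp only [dif_pos hs, dif_pos hs']
    exact (hQ.disj _ _ fun e => hne (congrArg Subtype.val e)).mono (p1 _) (p1 _)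

theorem glue (hA : ∀ W W', A W → W' ⊆ W → A W') {X Y : Finset V} (hn : ¬ Near G X Y)
    (hk : (nbd G X).card ≤ k) (hX : Ctx G k A X) (hY : Ctx G k A Y) : Dc G k A univ := by
  have hS0 : ¬ Joined G univ (X ∪ nbd G X) (Y ∪ nbd G Y) (nbd G X) := by
    rintro ⟨a, ha, b, hb, h1, h2⟩
    have h3 : a ∈ X := (mem_union.1 ha).resolve_right (mem_sdiff.1 h1).2
    have h4 : b ∈ X := (h2.closed h3 fun x hx y hy _ hxy => by
      by_contra hc
      exact (mem_sdiff.1 hy).2 (mem_nbd.2 ⟨hc, x, hx, hxy⟩)).1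
    rcases mem_union.1 hb with hb | hb
    · exact hn ⟨b, h4, b, hb, Or.inl rfl⟩
    · obtain ⟨-, w, h5, h6⟩ := mem_nbd.1 hb
      exact hn ⟨b, h4, w, h5, Or.inr h6.symm⟩
  obtain ⟨S, hS, hmin⟩ := exists_min_of
    (p := fun S => ¬ Joined G univ (X ∪ nbd G X) (Y ∪ nbd G Y) S) card ⟨_, hS0⟩
  have hm : ∀ Z : Finset V, Z.card < S.card → Joined G univ (X ∪ nbd G X) (Y ∪ nbd G Y) Z :=
    fun Z hZ => by_contra fun hc => absurd (hmin Z hc) (by omega)
  obtain ⟨P, p1, p2⟩ := half hS hm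
  obtain ⟨Q, q1, q2⟩ := half (fun h => hS h.symm) fun Z hZ => (hm Z hZ).symm
  let O := univ.filter fun v => ∃ b ∈ Y ∪ nbd G Y, b ∈ univ \ S ∧ R G (univ \ S) b v
  have o1 : ∀ v, v ∈ O ↔ ∃ b ∈ Y ∪ nbd G Y, b ∈ univ \ S ∧ R G (univ \ S) b v := fun v => by
    simp only [O, mem_filter, mem_univ, true_and]
  have o2 : ∀ v ∈ O, v ∉ S := fun v hv => by
    obtain ⟨b, -, h1, h2⟩ := (o1 v).1 hv
    exact (mem_sdiff.1 (h2.mem h1)).2
  have o3 : ∀ v ∈ O, ∀ w, w ∉ S → G.Adj v w → w ∈ O := fun v hv w hw h => by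
    obtain ⟨b, h0, h1, h2⟩ := (o1 v).1 hv
    exact (o1 w).2 ⟨b, h0, h1, h2.tail h (h2.mem h1) (by simpa using hw)⟩
  have o4 : ∀ v ∈ O, ∀ a ∈ X ∪ nbd G X, a ∈ univ \ S → ¬ R G (univ \ S) a v :=
    fun v hv a ha h3 h4 => by
      obtain ⟨b, h0, h1, h2⟩ := (o1 v).1 hv
      exact hS ⟨a, ha, b, h0, h3, h4.trans h2.symm⟩
  have d1 := Dc.trim hA (O := O) (S := S) (P := P) (Xb := X ∪ nbd G X) (fun v hv => by
      obtain ⟨h1, w, h2, h3⟩ := mem_nbd.1 hv
      exact by_contra fun hc => h1 (o3 w h2 v hc h3))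
    (fun s hs => ⟨(p1 s hs).1, (p1 s hs).2.1, disjoint_left.2 fun z h1 h2 => by
      obtain ⟨a, a1, a2, a3⟩ := (p1 s hs).2.2.2 z h1 (o2 z h2)
      exact o4 z h2 a a1 a2 a3, (p1 s hs).2.2.1⟩) p2 hX sdiff_disjoint
  have d2 := Dc.trim hA (O := (univ \ S) \ O) (S := S) (P := Q) (Xb := Y ∪ nbd G Y) (fun v hv => by
      obtain ⟨h1, w, h2, h3⟩ := mem_nbd.1 hv
      refine by_contra fun hc => h1 (mem_sdiff.2 ⟨by simpa using hc, fun h => ?_⟩)
      exact (mem_sdiff.1 h2).2 (o3 v h w (mem_sdiff.1 (mem_sdiff.1 h2).1).2 h3.symm))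
    (fun s hs => ⟨(q1 s hs).1, (q1 s hs).2.1, disjoint_left.2 fun z h1 h2 =>
      (mem_sdiff.1 h2).2 ((o1 z).2 ((q1 s hs).2.2.2 z h1 (mem_sdiff.1 (mem_sdiff.1 h2).1).2)),
      (q1 s hs).2.2.1⟩) q2 hY sdiff_disjoint
  rw [inter_eq_right.2 fun v hv => mem_sdiff.2 ⟨mem_univ _, fun h =>
    o4 v hv v h (by simpa using o2 v hv) R.refl⟩] at d1
  rw [inter_eq_right.2 fun v hv => mem_sdiff.2 ⟨mem_univ _, fun h =>
    (mem_sdiff.1 hv).2 ((o1 v).2 ⟨v, h, (mem_sdiff.1 hv).1, R.refl⟩)⟩] at d2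
  refine Dc.mv _ S (subset_univ _) (le_trans (card_le_card fun v hv => ?_)
    ((hmin _ hS0).trans hk)) ?_
  · exact (mem_union.1 hv).resolve_left fun h => (mem_nbd.1 h).1 (mem_univ _)
  · rw [← union_sdiff_of_subset (s := O) (t := univ \ S) fun v hv => by simpa using o2 v hv]
    refine Dc.un _ _ d1 d2 ?_
    rintro ⟨x, hx, y, hy, rfl | h⟩
    · exact (mem_sdiff.1 hy).2 hx
    · exact (mem_sdiff.1 hy).2 (o3 x hx y (mem_sdiff.1 (mem_sdiff.1 hy).1).2 h)

theorem Dc.mono {A' : Finset V → Prop} {W : Finset V} (hA : ∀ W, A W → A' W) (h : Dc G k A W) :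
    Dc G k A' W := by
  induction h with
  | leaf W h => exact Dc.leaf _ (hA _ h)
  | un W1 W2 _ _ hn i1 i2 => exact Dc.un _ _ i1 i2 hn
  | mv W R hR hk _ ih => exact Dc.mv _ _ hR hk ih

/-- A touching haven. -/
def TH (G : SimpleGraph V) (K : ℕ) (β : Finset V → Finset V) : Prop :=
  Haven G univ K β ∧ ∀ Z Z' : Finset V, Z.card < K → Z'.card < K → Near G (β Z) (β Z')

theorem exists_th (hk : 0 < k) (htw : k ≤ treewidth G) : ∃ β, TH G (k + 1) β := by
  obtain ⟨F, ⟨h0, h1, h2⟩, hmax⟩ := exists_max_of (p := fun F : Finset (Finset V) => ∅ ∈ F ∧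
      (∀ W W', W ∈ F → W' ⊆ W → W' ∈ F) ∧ ¬ Dc G k (· ∈ F) univ) card _
    (fun F _ => card_le_univ F) ⟨{∅}, mem_singleton_self _,
      fun W W' h1 h2 => by simpa [mem_singleton.1 h1] using h2, fun h => by
        have := (h.mono fun W h => mem_singleton.1 h).rd ∅
          (fun v hv => absurd (mem_univ _) (mem_nbd.1 hv).1) (by simp) (by simp)
        obtain ⟨k, rfl⟩ : ∃ k', k = k' + 1 := ⟨k - 1, by omega⟩
        rw [empty_union] at this
        exact absurd (htw.trans (Nat.sInf_le this.hasTreeDecomp)) (by omega)⟩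
  have key : ∀ X, X ∉ F → ∃ X' ⊆ X, (nbd G X').card ≤ k ∧ Ctx G k (· ∈ F) X' := by
    intro X hX
    obtain ⟨X', ⟨a, b⟩, c⟩ := exists_min_of (p := fun X' => X' ⊆ X ∧ X' ∉ F) card
      ⟨X, subset_rfl, hX⟩
    have d : Dc G k (· ∈ insert X' F) univ := by
      by_contra hc
      have := hmax (insert X' F) ⟨mem_insert_of_mem h0, fun W W' h3 h4 => ?_, hc⟩
      · rw [card_insert_of_notMem b] at this; omega
      rcases mem_insert.1 h3 with rfl | h3
      · by_contra hc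
        rw [mem_insert, not_or] at hc
        exact hc.1 (eq_of_subset_of_card_le h4 (c W' ⟨h4.trans a, hc.2⟩))
      · exact mem_insert_of_mem (h1 _ _ h3 h4)
    have e : nbd G (univ : Finset V) = ∅ :=
      eq_empty_of_forall_notMem fun v hv => (mem_nbd.1 hv).1 (mem_univ _)
    obtain ⟨-, f, g⟩ := (reroot (A := (· ∈ F)) (X := X')
      (nonempty_iff_ne_empty.2 fun e' => b (e' ▸ h0))
      (d.mono fun W h => (mem_insert.1 h).symm) (by simp [e])).resolve_left h2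
    exact ⟨X', a, f, g (Dc.leaf _ (by rwa [e, union_empty, Finset.sdiff_self]))⟩
  have near : ∀ X Y, X ∉ F → Y ∉ F → Near G X Y := fun X Y hX hY => by
    obtain ⟨X', a, b, c⟩ := key X hX
    obtain ⟨Y', d, -, e⟩ := key Y hY
    exact by_contra fun hc => h2 (glue h1 (fun h => hc (h.mono a d)) b c e)
  have big : ∀ Z : Finset V, ∃ B : Finset V, Z.card < k + 1 →
      B ∉ F ∧ ∃ v ∈ univ \ Z, B = comp G (univ \ Z) v := by
    intro Z
    by_contra hc
    push Not at hc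
    obtain ⟨C, ⟨c1, c2⟩, c3⟩ := exists_max_of
      (p := fun C => Closed G (univ \ Z) C ∧ Dc G k (· ∈ F) C) card _ (fun C _ => card_le_univ C)
      ⟨∅, ⟨empty_subset _, by simp⟩, Dc.leaf _ h0⟩
    by_cases e : univ \ Z ⊆ C
    · refine h2 (Dc.mv _ Z (subset_univ _) (le_trans (card_le_card fun v hv => ?_)
        (Nat.lt_succ_iff.1 (hc ∅).1)) (by rwa [e.antisymm c1.1]))
      exact (mem_union.1 hv).resolve_left fun h => (mem_nbd.1 h).1 (mem_univ _)
    obtain ⟨v, v1, v2⟩ := not_subset.1 e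
    have hn : ¬ Near G C (comp G (univ \ Z) v) := by
      rintro ⟨x, hx, y, hy, h⟩
      have : y ∈ C := h.elim (fun e => e ▸ hx) (c1.2 x hx y (comp_subset hy))
      exact v2 (c1.comp_subset this subset_rfl (comp_eq hy ▸ self_mem_comp v1))
    have := c3 _ ⟨c1.union ⟨comp_subset, fun x hx y hy => comp_closed hx hy⟩, Dc.un _ _ c2
      (Dc.leaf _ (by_contra fun h => (hc _).2 h v v1 rfl)) hn⟩
    exact v2 (eq_of_subset_of_card_le subset_union_left this ▸
      mem_union_right _ (self_mem_comp v1))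
  choose β hβ using big
  have b1 : ∀ Z : Finset V, Z.card < k + 1 → Conn G (β Z) ∧ β Z ⊆ univ \ Z ∧
      ∀ x ∈ β Z, ∀ y ∈ univ, y ∉ Z → G.Adj x y → y ∈ β Z := fun Z hZ => by
    obtain ⟨-, v, h1, h2⟩ := hβ Z hZ
    rw [h2]
    exact ⟨comp_conn h1, comp_subset, fun x hx y hy h => comp_closed hx (mem_sdiff.2 ⟨hy, h⟩)⟩
  refine ⟨β, ⟨fun Z hZ => (b1 Z hZ).1, fun Z hZ => (b1 Z hZ).2.1, fun Z hZ => (b1 Z hZ).2.2,
    fun Z Z' h hZ' => ?_⟩, fun Z Z' hZ hZ' => near _ _ (hβ Z hZ).1 (hβ Z' hZ').1⟩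
  have hZ := (card_le_card h).trans_lt hZ'
  have c : ∀ y ∈ β Z', y ∉ Z := fun y hy hc => (mem_sdiff.1 ((b1 Z' hZ').2.1 hy)).2 (h hc)
  obtain ⟨x, hx, y, hy, hxy⟩ := near _ _ (hβ Z hZ).1 (hβ Z' hZ').1
  exact (b1 Z' hZ').1.subset_of_closed hy
    (hxy.elim (fun e => e ▸ hx) ((b1 Z hZ).2.2 x hx y (mem_univ _) (c y hy)))
    fun a ha b hb _ => (b1 Z hZ).2.2 a ha b (mem_univ _) (c b hb)

theorem dual (hk : 0 < treewidth G) : ∃ K β, treewidth G < K ∧ TH G K β ∧ Sep G K := by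
  obtain ⟨K, ⟨h1, β, h2⟩, h3⟩ := exists_max_of
    (p := fun K => treewidth G < K ∧ ∃ β, TH G K β) id (Fintype.card V) (fun K hK => by
      obtain ⟨-, β, h, -⟩ := hK
      by_contra hc
      obtain ⟨v, hv⟩ := (h.conn univ (not_le.1 hc)).1
      exact h.not_mem (not_le.1 hc) hv (mem_univ _)) ⟨_, Nat.lt_succ_self _, exists_th hk le_rfl⟩
  refine ⟨K, β, h1, h2, fun X hX => ?_⟩
  obtain ⟨γ, g1, g2⟩ := hX.haven
  refine absurd (h3 (K + 1) ⟨by omega, γ, g1, fun Z Z' hZ hZ' => by_contra fun hc => ?_⟩) (by simp)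
  have hd : Disjoint (X ∩ γ Z) (X ∩ γ Z') := disjoint_left.2 fun v a b =>
    hc ⟨v, (mem_inter.1 a).2, v, (mem_inter.1 b).2, Or.inl rfl⟩
  have := card_le_card (union_subset (inter_subset_left (s₁ := X) (s₂ := γ Z))
    (inter_subset_left (s₁ := X) (s₂ := γ Z')))
  rw [card_union_of_disjoint hd] at this
  have := g2 Z hZ
  have := g2 Z' hZ'
  omega

end Pool.Agent.MP_7be75d_co.Cy
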