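import Mathlib.Combinatorics.SimpleGraph.CycleGraph
import Pool.Agent.MP_7be75d_co.Gen.Tools

/-! Long paths, groups of lanes, and joining paths to one cycle inside a path-of-sets system. -/

namespace Pool.Agent.MP_7be75d_co.Cy

open Finset
open scoped Classical

variable {V : Type} {G : SimpleGraph V}

/-- A path from `x` to `y` inside `S` with at least `L` vertices. -/
def LP (G : SimpleGraph V) (S : Finset V) (L : ℕ) (x y : V) : Prop :=
  ∃ p : G.Walk x y, p.IsPath ∧ (∀ v ∈ p.support, v ∈ S) ∧ L ≤ p.length + 1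

variable {S S' T : Finset V} {L L' : ℕ} {x y x' y' : V}

theorem LP.symm (h : LP G S L x y) : LP G S L y x := by
  obtain ⟨p, h1, h2, h3⟩ := h
  exact ⟨p.reverse, h1.reverse, by simpa using h2, by simpa using h3⟩

theorem LP.mono (h : LP G S L x y) (hS : S ⊆ S') (hL : L' ≤ L) : LP G S' L' x y := by
  obtain ⟨p, h1, h2, h3⟩ := h
  exact ⟨p, h1, fun v hv => hS (h2 v hv), hL.trans h3⟩

theorem LP.one (h : Conn G T) (hx : x ∈ T) (hy : y ∈ T) : LP G T 1 x y := by
  obtain ⟨p, hp⟩ := (h.2 x hx y hy).ind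
    (P := fun y => ∃ p : G.Walk x y, ∀ v ∈ p.support, v ∈ T) ⟨.nil, by simpa using hx⟩ (by
      rintro a b - ⟨p, hp⟩ hab - hb
      refine ⟨p.concat hab, fun v hv => ?_⟩
      simp only [SimpleGraph.Walk.support_concat, List.mem_append, List.mem_singleton] at hv
      exact hv.elim (hp v) fun e => e ▸ hb)
  exact ⟨p.bypass, p.bypass_isPath, fun v hv => hp v (p.support_bypass_subset_support hv), by omega⟩

theorem LP.cat (h : LP G S L x y) (h' : LP G S' L' x' y') (hd : Disjoint S S') (ha : G.Adj y x') :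
    LP G (S ∪ S') (L + L') x y' := by
  obtain ⟨p, h1, h2, h3⟩ := h
  obtain ⟨q, h4, h5, h6⟩ := h'
  have e : (p.append (.cons ha q)).support = p.support ++ q.support := by
    simp [SimpleGraph.Walk.support_append]
  refine ⟨p.append (.cons ha q), ?_, fun v hv => ?_, by simp; omega⟩
  · rw [SimpleGraph.Walk.isPath_def, e, List.nodup_append]
    exact ⟨h1.support_nodup, h4.support_nodup, fun a ha b hb e =>
      disjoint_left.1 hd (h2 a ha) (e ▸ h5 b hb)⟩
  · rw [e, List.mem_append] at hv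
    exact mem_union.2 (hv.imp (h2 v) (h5 v))

theorem LP.close {n : ℕ} (h : LP G S L x y) (ha : G.Adj y x) (hL : n ≤ L) :
    ModelIn (SimpleGraph.cycleGraph n) G S := by
  obtain ⟨p, h1, h2, h3⟩ := h
  let φ : Fin n → Finset V := fun j => (Icc j.1 (if j + 1 < n then j.1 else p.length)).image p.getVert
  have b : ∀ j : Fin n, ∀ i ∈ Icc j.1 (if j + 1 < n then j.1 else p.length),
      i ≤ p.length ∧ (i = j ∨ (j.1 + 1 = n ∧ j ≤ i)) := fun j i hi => by
    have := j.2
    rw [mem_Icc] at hi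
    split_ifs at hi <;> omega
  have m : ∀ j : Fin n, p.getVert j ∈ φ j := fun j => mem_image_of_mem _ (mem_Icc.2 ⟨le_rfl, by
    have := j.2
    split_ifs <;> omega⟩)
  have t : ∀ u v : Fin n, (u - v).val = 1 → Touch G (φ v) (φ u) := fun u v huv => by
    have := u.2
    have := v.2
    rw [Fin.val_sub] at huv
    by_cases e : v.1 ≤ u.1
    · rw [show n - v + u = u - v + n by omega, Nat.add_mod_right, Nat.mod_eq_of_lt (by omega)] at huv
      refine ⟨_, m v, _, m u, ?_⟩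
      rw [show u.1 = v + 1 by omega]
      exact p.adj_getVert_succ (by omega)
    · rw [Nat.mod_eq_of_lt (by omega)] at huv
      refine ⟨y, mem_image.2 ⟨p.length, mem_Icc.2 ⟨by omega, by rw [if_neg (by omega)]⟩, by simp⟩,
        _, m u, ?_⟩
      rwa [show u.1 = 0 by omega, p.getVert_zero]
  refine ⟨φ, fun j => image_subset_iff.2 fun i _ => h2 _ (p.getVert_mem_support i),
    fun j => conn_segment ?_ fun i a c => p.adj_getVert_succ ?_, fun j j' hne => ?_,
    fun u v huv => ?_⟩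
  · have := j.2
    split_ifs <;> omega
  · split_ifs at c <;> omega
  · rw [disjoint_left]
    intro v a0 c0
    obtain ⟨i, a, rfl⟩ := mem_image.1 a0
    obtain ⟨i', c, e⟩ := mem_image.1 c0
    have := h1.getVert_injOn (b _ _ c).1 (b _ _ a).1 e
    have := (b _ _ c).2
    have := (b _ _ a).2
    have := j.2
    have := j'.2
    exact hne (Fin.ext (by omega))
  · exact (SimpleGraph.cycleGraph_adj'.1 huv).elim (fun h => (t u v h).symm) (t v u)

theorem chain {B : ℕ → Finset V} {N lo hi : ℕ} (h1 : ∀ w < N, Conn G (B w))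
    (h2 : ∀ w < N, ∀ w' < N, w ≠ w' → Disjoint (B w) (B w'))
    (h3 : ∀ w, w + 1 < N → Touch G (B w) (B (w + 1))) (hx : x ∈ B lo) (h : lo ≤ hi) :
    hi < N → ∀ y ∈ B hi, LP G ((Icc lo hi).biUnion B) (hi - lo + 1) x y := by
  induction hi, h using Nat.le_induction with
  | base => exact fun h y hy => by simpa using LP.one (h1 lo h) hx hy
  | succ n hn ih =>
    intro h y hy
    obtain ⟨u, hu, v, hv, huv⟩ := h3 n h
    refine ((ih (by omega) u hu).cat (LP.one (h1 _ h) hv hy)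
      ((disjoint_biUnion_left _ _ _).2 fun i hi => ?_) huv).mono (union_subset
      (biUnion_subset_biUnion_of_subset_left _ (Icc_subset_Icc_right (by omega)))
      (subset_biUnion_of_mem B (mem_Icc.2 ⟨by omega, le_rfl⟩))) (by omega)
    have := (mem_Icc.1 hi).2
    exact h2 i (by omega) _ h (by omega)

variable {ι : Type} [Fintype ι]

theorem grp1 {C : CD V ι} (h : IsCluster G C) (I : Finset ι) {m : ℕ} (hm : 1 ≤ m) :
    m ≤ I.card → ∃ J ⊆ I, J.card = m ∧ ∃ Ω ⊆ C.β ∅, Conn G Ω ∧ (∀ k ∈ J, C.lane k ⊆ Ω) ∧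
      ∀ k ∈ I, k ∉ J → Disjoint (C.lane k) Ω := by
  induction m, hm using Nat.le_induction with
  | base =>
    intro h1
    obtain ⟨k, hk⟩ := card_pos.1 h1
    exact ⟨{k}, by simpa using hk, by simp, C.lane k, h.lane_sub_empty k, h.conn k, by simp,
      fun j _ hj => h.disj j k (by simpa using hj)⟩
  | succ m hm ih =>
    intro h1
    obtain ⟨J, j1, j2, Ω, o1, o2, o3, o4⟩ := ih (by omega)
    obtain ⟨k0, k1, k2⟩ := exists_not_mem_of_card_lt (s := I) (t := J) (by omega)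
    obtain ⟨v, hv⟩ := o2.1
    have s1 : Ω ⊆ C.β ∅ \ (I \ J).biUnion C.lane := subset_sdiff.2 ⟨o1,
      (disjoint_biUnion_right _ _ _).2 fun k hk => (o4 k (mem_sdiff.1 hk).1 (mem_sdiff.1 hk).2).symm⟩
    have s2 : ∀ k ∈ I, k ∉ J →
        Disjoint (C.lane k) (comp G (C.β ∅ \ (I \ J).biUnion C.lane) v) := fun k a b =>
      disjoint_left.2 fun u c d => (mem_sdiff.1 (comp_subset d)).2
        (mem_biUnion.2 ⟨k, mem_sdiff.2 ⟨a, b⟩, c⟩)
    obtain ⟨a, b, a1, b1, -, b2, hab⟩ := (h.hv.conn ∅ (Fintype.card_pos_iff.2 ⟨k0⟩)).exit (o1 hv)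
      (self_mem_comp (G := G) (s1 hv)) (h.lane_sub_empty k0 (h.ma k0))
      (disjoint_left.1 (s2 k0 k1 k2) (h.ma k0))
    obtain ⟨k, k3, k4⟩ := mem_biUnion.1
      (by_contra fun hc => b1 (comp_closed a1 (mem_sdiff.2 ⟨b2, hc⟩) hab))
    obtain ⟨k5, k6⟩ := mem_sdiff.1 k3
    refine ⟨insert k J, insert_subset k5 j1, by rw [card_insert_of_notMem k6, j2], _,
      union_subset (comp_subset.trans sdiff_subset) (h.lane_sub_empty k),
      (comp_conn (s1 hv)).union_adj (h.conn k) a1 k4 hab, fun j hj => ?_, fun j a b => ?_⟩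
    · rcases mem_insert.1 hj with rfl | hj
      · exact subset_union_right
      · exact (o3 j hj).trans ((o2.subset_comp s1 hv (self_mem_comp (s1 hv))).trans
          subset_union_left)
    · rw [mem_insert, not_or] at b
      exact disjoint_union_right.2 ⟨s2 j a b.2, h.disj j k b.1⟩

theorem grp {C : ℕ → CD V ι} {n : ℕ} (hn : 0 < n) (c : ℕ) {m : ℕ → ℕ} (hm : ∀ i, 1 ≤ m i) : ∀ I : Finset ι,
    ∑ i ∈ range c, m i ≤ I.card → (∀ j < c * (2 ^ Fintype.card ι * n), IsCluster G (C j)) →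
    ∃ (J : ℕ → Finset ι) (lo : ℕ → ℕ) (Ω : ℕ → ℕ → Finset V),
      (∀ i < c, J i ⊆ I ∧ (J i).card = m i ∧ lo i ≤ c * (2 ^ Fintype.card ι * n) ∧
        n ≤ ((Ico (lo i) (c * (2 ^ Fintype.card ι * n))).filter fun j => Conn G (Ω i j)).card ∧
        ∀ j, lo i ≤ j → j < c * (2 ^ Fintype.card ι * n) →
          Ω i j ⊆ (C j).reg ∧ ∀ k ∈ J i, (C j).lane k ⊆ Ω i j) ∧
      ∀ i < c, ∀ i' < c, i ≠ i' → Disjoint (J i) (J i') ∧ ∀ j, lo i ≤ j → lo i' ≤ j →
        j < c * (2 ^ Fintype.card ι * n) → Disjoint (Ω i j) (Ω i' j) := by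
  set N := 2 ^ Fintype.card ι * n with hN
  induction c with
  | zero => exact fun _ _ _ => ⟨fun _ => ∅, fun _ => 0, fun _ _ => ∅, by simp, by simp⟩
  | succ c ih =>
    intro I h1 h2
    rw [sum_range_succ] at h1
    rw [Nat.succ_mul] at h2 ⊢
    choose! f f1 f2 O o1 o2 o3 o4 using fun j (hj : j < c * N + N) =>
      grp1 (h2 j hj) I (hm c) (by omega)
    obtain ⟨J0, -, g⟩ := exists_le_card_fiber_of_mul_le_card_of_maps_to
      (s := Ico (c * N) (c * N + N)) (t := univ) (f := f) (n := n) (fun _ _ => mem_univ _)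
      univ_nonempty (by simp [hN])
    obtain ⟨j0, g0⟩ := card_pos.1 (hn.trans_le g)
    obtain ⟨g1, g2⟩ := mem_filter.1 g0
    have g3 := g2 ▸ f1 j0 (mem_Ico.1 g1).2
    have g4 := g2 ▸ f2 j0 (mem_Ico.1 g1).2
    obtain ⟨J, lo, Ω, a1, a2⟩ := ih (I \ J0) (by rw [card_sdiff_of_subset g3]; omega)
      fun j hj => h2 j (by omega)
    let T : ℕ → Finset V := fun j => if f j = J0 then O j else J0.biUnion (C j).lane
    have t1 : ∀ j < c * N + N, T j ⊆ (C j).reg ∧ (∀ k ∈ J0, (C j).lane k ⊆ T j) ∧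
        ∀ k ∈ I \ J0, Disjoint ((C j).lane k) (T j) := fun j hj => by
      simp only [T]
      split_ifs with e
      · exact ⟨(o1 j hj).trans ((h2 j hj).hv.subU (by
          have := card_le_univ J0
          have := hm c
          rw [card_empty]; omega)), e ▸ o3 j hj,
          fun k hk => o4 j hj k (mem_sdiff.1 hk).1 (e ▸ (mem_sdiff.1 hk).2)⟩
      · exact ⟨biUnion_subset.2 fun k _ => (h2 j hj).sub k, fun k => subset_biUnion_of_mem _,
          fun k hk => (disjoint_biUnion_right _ _ _).2 fun k' hk' =>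
            (h2 j hj).disj _ _ (ne_of_mem_of_not_mem hk' (mem_sdiff.1 hk).2).symm⟩
    have key : ∀ i < c, ∀ j, c * N ≤ j → j < c * N + N →
        Disjoint (if j < c * N then Ω i j else (J i).biUnion (C j).lane) (T j) := fun i hi j a b => by
      rw [if_neg (by omega)]
      exact (disjoint_biUnion_left _ _ _).2 fun k hk => (t1 j b).2.2 k ((a1 i hi).1 hk)
    refine ⟨fun i => if i < c then J i else J0, fun i => if i < c then lo i else c * N,
      fun i j => if i < c then (if j < c * N then Ω i j else (J i).biUnion (C j).lane) else T j,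
      fun i _ => ?_, fun i hi i' hi' hne => ?_⟩
    · by_cases hi : i < c
      · simp only [if_pos hi]
        obtain ⟨b1, b2, b3, b4, b5⟩ := a1 i hi
        refine ⟨b1.trans sdiff_subset, b2, by omega, b4.trans (card_le_card fun j hj => ?_),
          fun j c1 c2 => ?_⟩
        · simp only [mem_filter, mem_Ico] at hj ⊢
          exact ⟨⟨hj.1.1, by omega⟩, by rw [if_pos hj.1.2]; exact hj.2⟩
        · split_ifs with e
          · exact b5 j c1 e
          · exact ⟨biUnion_subset.2 fun k _ => (h2 j c2).sub k, fun k => subset_biUnion_of_mem _⟩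
      · simp only [if_neg hi]
        obtain rfl : i = c := by omega
        refine ⟨g3, g4, by omega, g.trans (card_le_card fun j hj => ?_),
          fun j _ c2 => ⟨(t1 j c2).1, (t1 j c2).2.1⟩⟩
        obtain ⟨c1, c2⟩ := mem_filter.1 hj
        refine mem_filter.2 ⟨c1, ?_⟩
        simp only [T, if_pos c2]
        exact o2 j (mem_Ico.1 c1).2
    · by_cases e : i < c <;> by_cases e' : i' < c
      · simp only [if_pos e, if_pos e']
        refine ⟨(a2 i e i' e' hne).1, fun j c1 c2 c3 => ?_⟩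
        split_ifs with c4
        · exact (a2 i e i' e' hne).2 j c1 c2 c4
        · exact (disjoint_biUnion_left _ _ _).2 fun k hk => (disjoint_biUnion_right _ _ _).2
            fun k' hk' => (h2 j c3).disj _ _
              (ne_of_mem_of_not_mem hk (disjoint_right.1 (a2 i e i' e' hne).1 hk'))
      · simp only [if_pos e, if_neg e']
        exact ⟨sdiff_disjoint.mono_left (a1 i e).1, fun j _ => key i e j⟩
      · simp only [if_neg e, if_pos e']
        exact ⟨disjoint_sdiff.mono_right (a1 i' e').1, fun j c1 _ c3 => (key i' e' j c1 c3).symm⟩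
      · omega

theorem step {α : Type} {C : ℕ → CD V ι} {l n : ℕ} (h : PoS G (l + 1) C) (hn : n < l)
    {A : Finset α} {S : α → Finset V} {L : α → ℕ} {e : α × Bool → ι} {Q : α × Bool → Finset V}
    (hQ : ∀ p : α × Bool, p.1 ∈ A → (C n).lane (e p) ⊆ Q p ∧ Q p ⊆ (C n).reg ∧ Conn G (Q p))
    (hd : ∀ p q : α × Bool, p.1 ∈ A → q.1 ∈ A → p ≠ q → Disjoint (Q p) (Q q))
    (h1 : ∀ a ∈ A, LP G (S a) (L a) ((C (n + 1)).a (e (a, false))) ((C (n + 1)).a (e (a, true))) ∧
      ∀ j < n + 1, Disjoint (S a) (C j).reg)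
    (h2 : ∀ a ∈ A, ∀ a' ∈ A, a ≠ a' → Disjoint (S a) (S a')) :
    (∀ a ∈ A, (∀ b, ∀ x ∈ Q (a, b), ∀ y ∈ Q (a, !b),
        LP G (Q (a, false) ∪ S a ∪ Q (a, true)) (L a) x y) ∧
      ∀ j < n, Disjoint (Q (a, false) ∪ S a ∪ Q (a, true)) (C j).reg) ∧
    ∀ a ∈ A, ∀ a' ∈ A, a ≠ a' →
      Disjoint (Q (a, false) ∪ S a ∪ Q (a, true)) (Q (a', false) ∪ S a' ∪ Q (a', true)) := by
  have cl := h.cl n (by omega)
  have d : ∀ a ∈ A, ∀ p : α × Bool, p.1 ∈ A → Disjoint (S a) (Q p) := fun a ha p hp =>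
    ((h1 a ha).2 n (by omega)).mono_right (hQ p hp).2.1
  refine ⟨fun a ha => ⟨?_, fun j hj => ?_⟩, fun a ha a' ha' hne => ?_⟩
  · have : ∀ x ∈ Q (a, false), ∀ y ∈ Q (a, true),
        LP G (Q (a, false) ∪ S a ∪ Q (a, true)) (L a) x y := fun x hx y hy =>
      (((LP.one (hQ (a, false) ha).2.2 hx ((hQ (a, false) ha).1 (cl.mb _))).cat (h1 a ha).1
        (d a ha (a, false) ha).symm (h.adj n (by omega) _)).cat
        (LP.one (hQ (a, true) ha).2.2 ((hQ (a, true) ha).1 (cl.mb _)) hy)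
        (disjoint_union_left.2 ⟨hd _ _ ha ha (by simp), d a ha (a, true) ha⟩)
        (h.adj n (by omega) _).symm).mono subset_rfl (by omega)
    rintro (_ | _) x hx y hy
    · exact this x hx y hy
    · exact (this y hy x hx).symm
  · have := h.disj n (by omega) j (by omega) (by omega)
    simp only [disjoint_union_left]
    exact ⟨⟨this.mono_left (hQ (a, false) ha).2.1, (h1 a ha).2 j (by omega)⟩,
      this.mono_left (hQ (a, true) ha).2.1⟩
  · have k : ∀ b b', Disjoint (Q (a, b)) (Q (a', b')) := fun b b' =>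
      hd _ _ ha ha' fun e => hne (congrArg Prod.fst e)
    simp only [disjoint_union_left, disjoint_union_right]
    exact ⟨⟨⟨⟨k _ _, d a ha (a', _) ha'⟩, k _ _⟩, ⟨(d a' ha' (a, _) ha).symm, h2 a ha a' ha' hne⟩,
      (d a' ha' (a, _) ha).symm⟩, ⟨k _ _, d a ha (a', _) ha'⟩, k _ _⟩

theorem join {α : Type} {C : ℕ → CD V ι} {l lo n : ℕ} (h : PoS G (l + 1) C) {J : Finset ι}
    {Ω : ℕ → Finset V} {Y : Finset V} (hlo : lo ≤ n) : n ≤ l →
    (∀ j, lo ≤ j → j < n → Ω j ⊆ Y ∧ Ω j ⊆ (C j).reg ∧ ∀ k ∈ J, (C j).lane k ⊆ Ω j) →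
    ∀ (A : Finset α) (S : α → Finset V) (L : α → ℕ) (e : α × Bool → ι), A.Nonempty →
    A.card ≤ ((Ico lo n).filter fun j => Conn G (Ω j)).card → (∀ p : α × Bool, p.1 ∈ A → e p ∈ J) →
    (∀ p q : α × Bool, p.1 ∈ A → q.1 ∈ A → p ≠ q → e p ≠ e q) → (∀ a ∈ A, S a ⊆ Y) →
    (∀ a ∈ A, LP G (S a) (L a) ((C n).a (e (a, false))) ((C n).a (e (a, true))) ∧
      ∀ j < n, Disjoint (S a) (C j).reg) → (∀ a ∈ A, ∀ a' ∈ A, a ≠ a' → Disjoint (S a) (S a')) →
    ∃ x y, LP G Y (∑ a ∈ A, L a) x y ∧ G.Adj y x := by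
  induction n, hlo using Nat.le_induction with
  | base =>
    intro _ _ A _ _ _ h1 h2
    have := card_pos.2 h1
    simp at h2
    simp [h2] at this
  | succ n hlo ih =>
    intro hn hΩ A S L e h0 hc hJ he hY h1 h2
    have cl := h.cl n (by omega)
    obtain ⟨w1, w2, w3⟩ := hΩ n hlo (by omega)
    replace ih := ih (by omega) fun j a b => hΩ j a (by omega)
    rw [Nat.Ico_succ_right_eq_insert_Ico hlo, filter_insert] at hc
    split_ifs at hc with hg
    swap
    · obtain ⟨s1, s2⟩ := step (Q := fun p => (C n).lane (e p)) h hn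
        (fun p _ => ⟨subset_rfl, cl.sub _, cl.conn _⟩)
        (fun p q a b c => cl.disj _ _ (he p q a b c)) h1 h2
      exact ih A _ L e h0 hc hJ he (fun a ha => union_subset (union_subset
        ((w3 _ (hJ (a, _) ha)).trans w1) (hY a ha)) ((w3 _ (hJ (a, _) ha)).trans w1))
        (fun a ha => ⟨(s1 a ha).1 false _ (cl.ma _) _ (cl.ma _), (s1 a ha).2⟩) s2
    obtain ⟨a0, ha0⟩ := h0
    have mp : ∀ p : α × Bool, p ∈ A ×ˢ (univ : Finset Bool) ↔ p.1 ∈ A := by simp
    have : Nonempty (A ×ˢ (univ : Finset Bool) : Finset _) := ⟨⟨(a0, false), (mp _).2 ha0⟩⟩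
    obtain ⟨Q0, q1, q2, -, q4⟩ := Gen.fat
      (fun p : (A ×ˢ (univ : Finset Bool) : Finset _) => (C n).lane (e p.1)) hg
      (fun p => ⟨w3 _ (hJ _ ((mp _).1 p.2)), cl.conn _⟩) fun p q hne =>
        cl.disj _ _ (he _ _ ((mp _).1 p.2) ((mp _).1 q.2) fun e => hne (Subtype.ext e))
    obtain ⟨Q, hQ⟩ : ∃ Q : α × Bool → Finset V, ∀ p hp, Q0 ⟨p, hp⟩ = Q p :=
      ⟨fun p => if hp : p ∈ A ×ˢ (univ : Finset Bool) then Q0 ⟨p, hp⟩ else ∅,
        fun p hp => by simp only [dif_pos hp]⟩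
    have r1 : ∀ p : α × Bool, p.1 ∈ A → (C n).lane (e p) ⊆ Q p ∧ Q p ⊆ Ω n ∧ Conn G (Q p) :=
      fun p hp => hQ p ((mp p).2 hp) ▸ q1 ⟨p, (mp p).2 hp⟩
    obtain ⟨s1, s2⟩ := step (Q := Q) h hn
      (fun p hp => ⟨(r1 p hp).1, (r1 p hp).2.1.trans w2, (r1 p hp).2.2⟩) (fun p q a b c => by
        rw [← hQ p ((mp p).2 a), ← hQ q ((mp q).2 b)]
        exact q2 _ _ fun e => c (congrArg Subtype.val e)) h1 h2
    have s3 : ∀ a ∈ A, Q (a, false) ∪ S a ∪ Q (a, true) ⊆ Y := fun a ha => union_subset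
      (union_subset ((r1 (a, _) ha).2.1.trans w1) (hY a ha)) ((r1 (a, _) ha).2.1.trans w1)
    have ma : ∀ p : α × Bool, p.1 ∈ A → (C n).a (e p) ∈ Q p := fun p hp => (r1 p hp).1 (cl.ma _)
    by_cases hA : ∀ a ∈ A, a = a0
    · obtain ⟨⟨⟨a, b⟩, hp⟩, -, c, x, hx, y, hy, hxy⟩ := q4.exists_adj
        (a := ⟨(a0, false), (mp _).2 ha0⟩) (b := ⟨(a0, true), (mp _).2 ha0⟩) (mem_univ _)
        (mem_univ _) (by simp)
      obtain rfl := hA a ((mp _).1 hp)
      obtain rfl : b = true := by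
        cases b
        exacts [absurd rfl c, rfl]
      rw [hQ] at hx hy
      refine ⟨x, y, ((s1 a ha0).1 false x hx y hy).mono (s3 a ha0) ?_, hxy.symm⟩
      rw [eq_singleton_iff_unique_mem.2 ⟨ha0, hA⟩, sum_singleton]
    push Not at hA
    obtain ⟨a, ha, hne⟩ := hA
    obtain ⟨⟨⟨a0', b0⟩, p0⟩, ⟨⟨a1, b1⟩, p1⟩, c0, c1, -, -, -, u, hu, v, hv, huv⟩ := q4.exit
      (T := univ.filter fun p => p.1.1 = a0) (a := ⟨(a0, false), (mp _).2 ha0⟩)
      (b := ⟨(a, false), (mp _).2 ha⟩) (mem_univ _) (mem_filter.2 ⟨mem_univ _, rfl⟩)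
      (mem_univ _) fun hc => hne (mem_filter.1 hc).2
    obtain rfl : a0' = a0 := (mem_filter.1 c0).2
    replace c1 : a1 ≠ a0' := fun e => c1 (mem_filter.2 ⟨mem_univ _, e⟩)
    have ha1 : a1 ∈ A := (mp _).1 p1
    rw [hQ] at hu hv
    let σ : α × Bool → α × Bool := fun p =>
      if p.1 = a0' then (if p.2 then (a1, !b1) else (a0', !b0)) else p
    have σ1 : ∀ p : α × Bool, p.1 ∈ A.erase a1 → (σ p).1 ∈ A := fun p hp => by
      simp only [σ]
      split_ifs
      exacts [ha1, ha0, mem_of_mem_erase hp]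
    have := ih (A.erase a1) (fun a => (Q (a, false) ∪ S a ∪ Q (a, true)) ∪
        if a = a0' then Q (a1, false) ∪ S a1 ∪ Q (a1, true) else ∅)
      (fun a => L a + if a = a0' then L a1 else 0) (fun p => e (σ p))
      ⟨a0', mem_erase.2 ⟨c1.symm, ha0⟩⟩ (by
        have := card_erase_add_one ha1
        have := hc.trans (card_insert_le _ _)
        omega) (fun p hp => hJ _ (σ1 p hp)) (fun p q hp hq hpq => he _ _ (σ1 p hp) (σ1 q hq) ?_)
      (fun a ha => union_subset (s3 a (mem_of_mem_erase ha)) ?_) (fun a ha => ?_)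
      fun a ha a' ha' hne => ?_
    · rwa [sum_add_distrib, sum_ite_eq', if_pos (mem_erase.2 ⟨c1.symm, ha0⟩),
        sum_erase_add _ _ ha1] at this
    · obtain ⟨p, b⟩ := p
      obtain ⟨q, b'⟩ := q
      have d1 : p ≠ a1 := (mem_erase.1 hp).1
      have d2 : q ≠ a1 := (mem_erase.1 hq).1
      simp only [σ]
      split_ifs with e1 e2 e3 e4 e5 e6 e7 e8 <;> intro e0 <;> have e0' := congrArg Prod.fst e0
      · exact hpq (Prod.ext (e1.trans e3.symm) (e2.trans e4.symm))
      · exact c1 e0'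
      · exact d2 e0'.symm
      · exact c1 e0'.symm
      · exact hpq (Prod.ext (e1.trans e5.symm) ((Bool.eq_false_iff.2 e2).trans
          (Bool.eq_false_iff.2 e6).symm))
      · exact e5 e0'.symm
      · exact d1 e0'
      · exact e1 e0'
      · exact hpq e0
    · split_ifs
      exacts [s3 a1 ha1, empty_subset _]
    · by_cases e0 : a = a0'
      · subst e0
        simp only [σ, if_true, Bool.false_eq_true, if_false]
        exact ⟨((s1 a ha0).1 (!b0) _ (ma (a, _) ha0) u (by simpa using hu)).cat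
          ((s1 a1 ha1).1 b1 v hv _ (ma (a1, _) ha1)) (s2 a ha0 a1 ha1 c1.symm) huv,
          fun j hj => disjoint_union_left.2 ⟨(s1 a ha0).2 j hj, (s1 a1 ha1).2 j hj⟩⟩
      · have ha := mem_of_mem_erase ha
        simp only [σ, if_neg e0, union_empty, add_zero]
        exact ⟨(s1 a ha).1 false _ (ma (a, _) ha) _ (ma (a, _) ha), (s1 a ha).2⟩
    · obtain ⟨d1, d2⟩ := mem_erase.1 ha
      obtain ⟨d3, d4⟩ := mem_erase.1 ha'
      refine disjoint_union_left.2 ⟨disjoint_union_right.2 ⟨s2 a d2 a' d4 hne, ?_⟩,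
        disjoint_union_right.2 ⟨?_, ?_⟩⟩
      · split_ifs
        exacts [s2 a d2 a1 ha1 d1, disjoint_empty_right _]
      · split_ifs
        exacts [s2 a1 ha1 a' d4 d3.symm, disjoint_empty_left _]
      · split_ifs with e1 e2
        exacts [absurd (e1.trans e2.symm) hne, disjoint_empty_right _, disjoint_empty_left _,
          disjoint_empty_left _]

end Pool.Agent.MP_7be75d_co.Cy
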