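import Pool.Agent.MP_7be75d_co.cy.Frame
import Pool.Agent.MP_7be75d_co.cy.Col
import Pool.Agent.MP_7be75d_co.cy.Join
import Pool.Agent.MP_7be75d_co.cy.Cycles

/-! Disjoint cycles of prescribed lengths from tree-width slightly above the total length. -/

namespace Pool.Agent.MP_7be75d_co.Cy

open Finset
open scoped Classical

variable {V : Type} {G : SimpleGraph V}

theorem Frame.cyc {c D M s : ℕ} {B E : ℕ → Finset V} {π : ℕ → Fin M} {C : ℕ → CD V (Fin M)}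
    (h : Frame G (c * (2 ^ M * M)) M s B E π C) (hM : 0 < M) (hD : 0 < D) (hs : 0 < s)
    (hcol : ∀ J : ℕ → Finset ℕ, (∀ i < c, J i ⊆ range M) →
      (∀ i < c, ∀ i' < c, i ≠ i' → Disjoint (J i) (J i')) →
      ∃ (A : ℕ → Finset ℕ) (lo hi : ℕ → ℕ → ℕ),
        (∀ i < c, A i ⊆ range M ∧ D * (J i).card ≤ D * ∑ b ∈ A i, (hi i b - lo i b) + M ∧
          ∀ b ∈ A i, lo i b ∈ J i ∧ hi i b ∈ J i ∧ lo i b < hi i b) ∧
        (∀ i < c, ∀ i' < c, i ≠ i' → Disjoint (A i) (A i')) ∧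
        ∀ i < c, ∀ i' < c, ∀ b ∈ A i, ∀ b' ∈ A i', b < b' → hi i b < lo i' b')
    (ℓ : ℕ → ℕ) (hℓ : ∑ i ∈ range c, (ℓ i / s + 1 + (M / D + 1)) ≤ M) :
    ∃ Y : ℕ → Finset V, (∀ i < c, ModelIn (SimpleGraph.cycleGraph (ℓ i)) G (Y i)) ∧
      ∀ i < c, ∀ i' < c, i ≠ i' → Disjoint (Y i) (Y i') := by
  obtain ⟨J, l0, Ω, g1, g2⟩ := grp (G := G) (C := C) hM c
    (m := fun i => ℓ i / s + 1 + (M / D + 1)) (fun i => Nat.le_add_left _ _) univ (by simpa using hℓ)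
    fun j hj => h.pos.cl j (by rw [Fintype.card_fin] at hj; omega)
  rw [Fintype.card_fin] at g1 g2
  set l := c * (2 ^ M * M)
  obtain ⟨A, lo, hi, a1, a2, a3⟩ := hcol (fun i => (range M).filter fun k => π k ∈ J i)
    (fun i _ => filter_subset _ _) fun i hi i' hi' hne => disjoint_left.2 fun k a b =>
      disjoint_left.1 (g2 i hi i' hi' hne).1 (mem_filter.1 a).2 (mem_filter.1 b).2
  let e : ℕ → ℕ × Bool → ℕ := fun i p => if p.2 then hi i p.1 else lo i p.1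
  have e1 : ∀ i < c, ∀ p : ℕ × Bool, p.1 ∈ A i →
      (e i p < M ∧ π (e i p) ∈ J i) ∧ lo i p.1 ≤ e i p ∧ e i p ≤ hi i p.1 := fun i a p b => by
    obtain ⟨h1, h2, h3⟩ := (a1 i a).2.2 _ b
    simp only [mem_filter, mem_range] at h1 h2
    simp only [e]
    split_ifs
    exacts [⟨h2, h3.le, le_rfl⟩, ⟨h1, le_rfl, h3.le⟩]
  have sep : ∀ i < c, ∀ i' < c, ∀ b ∈ A i, ∀ b' ∈ A i', b ≠ b' →
      hi i b < lo i' b' ∨ hi i' b' < lo i b := fun i a i' a' b c b' c' hne =>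
    (lt_or_gt_of_ne hne).imp (a3 i a i' a' b c b' c') (a3 i' a' i a b' c' b c)
  let S : ℕ → ℕ → Finset V := fun i b =>
    E (lo i b) ∪ (Icc (lo i b * s) (hi i b * s)).biUnion B ∪ E (hi i b)
  have lt : ∀ i < c, ∀ b ∈ A i, ∀ w ∈ Icc (lo i b * s) (hi i b * s), w < M * s :=
    fun i a b c w hw => (mem_Icc.1 hw).2.trans_lt
      (Nat.mul_lt_mul_of_pos_right (e1 i a (b, true) c).1.1 hs)
  have s1 : ∀ i < c, ∀ b ∈ A i, ∀ j < l, Disjoint (S i b) (C j).reg := fun i a b c j hj => by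
    simp only [S, disjoint_union_left, disjoint_biUnion_left]
    exact ⟨⟨h.er _ (e1 i a (b, false) c).1.1 j hj, fun w hw => h.br w (lt i a b c w hw) j hj⟩,
      h.er _ (e1 i a (b, true) c).1.1 j hj⟩
  have s2 : ∀ i < c, ∀ i' < c, ∀ b ∈ A i, ∀ b' ∈ A i', b ≠ b' → Disjoint (S i b) (S i' b') := by
    intro i a i' a' b c b' c' hne
    have k0 := sep i a i' a' b c b' c' hne
    have k1 : ∀ x y, Disjoint (E (e i (b, x))) (E (e i' (b', y))) := fun x y => by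
      have := e1 i a (b, x) c
      have := e1 i' a' (b', y) c'
      exact h.ed _ (by omega) _ (by omega) (by dsimp only at *; omega)
    simp only [S, disjoint_union_left, disjoint_union_right, disjoint_biUnion_left,
      disjoint_biUnion_right]
    refine ⟨⟨⟨⟨k1 false false, fun w hw => (h.eb _ (e1 i' a' (b', false) c').1.1 w
      (lt i a b c w hw)).symm⟩, k1 true false⟩, fun w hw => ⟨⟨h.eb _ (e1 i a (b, false) c).1.1 w
      (lt i' a' b' c' w hw), fun u hu => h.bdj u (lt i a b c u hu) w (lt i' a' b' c' w hw) ?_⟩,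
      h.eb _ (e1 i a (b, true) c).1.1 w (lt i' a' b' c' w hw)⟩⟩, ⟨k1 false true,
      fun w hw => (h.eb _ (e1 i' a' (b', true) c').1.1 w (lt i a b c w hw)).symm⟩, k1 true true⟩
    rw [mem_Icc] at hu hw
    rcases k0 with k0 | k0 <;> have := Nat.mul_lt_mul_of_pos_right k0 hs <;> omega
  refine ⟨fun i => (A i).biUnion (S i) ∪ (Ico (l0 i) l).biUnion (Ω i), fun i a => ?_,
    fun i a i' a' hne => ?_⟩
  · obtain ⟨-, b1, b2, b3, b4⟩ := g1 i a
    obtain ⟨c1, c2, c3⟩ := a1 i a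
    have d1 : (J i).card ≤ ((range M).filter fun k => π k ∈ J i).card :=
      card_le_card_of_surjOn π fun k hk => by
        obtain ⟨p, h1, rfl⟩ := h.surj k
        exact ⟨p, mem_coe.2 (mem_filter.2 ⟨mem_range.2 h1, hk⟩), rfl⟩
    have d2 : ℓ i / s + 1 ≤ ∑ b ∈ A i, (hi i b - lo i b) := by
      have d3 := Nat.mul_le_mul_left D d1
      have := Nat.lt_mul_div_succ M hD
      rw [b1, mul_add] at d3
      exact Nat.le_of_mul_le_mul_left (by omega) hD
    have key := join (α := ℕ) (J := J i) (Ω := Ω i)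
      (Y := (A i).biUnion (S i) ∪ (Ico (l0 i) l).biUnion (Ω i)) h.pos b2 le_rfl
      (fun j h1 h2 => ⟨(subset_biUnion_of_mem _ (mem_Ico.2 ⟨h1, h2⟩)).trans subset_union_right,
        b4 j h1 h2⟩) (A i) (S i) (fun b => (hi i b - lo i b) * s) (fun p => π (e i p))
      (nonempty_iff_ne_empty.2 fun e => by simp [e] at d2)
      (((card_le_card c1).trans_eq (card_range M)).trans b3) (fun p hp => (e1 i a p hp).1.2)
      (fun p q hp hq hne => ?_) (fun b hb => (subset_biUnion_of_mem _ hb).trans subset_union_left)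
      (fun b hb => ⟨?_, s1 i a b hb⟩) fun b hb b' hb' => s2 i a i a b hb b' hb'
    · obtain ⟨x, y, h1, h2⟩ := key
      refine h1.close h2 ?_
      rw [← sum_mul]
      have := Nat.lt_div_mul_add (a := ℓ i) hs
      have := Nat.mul_le_mul_right s d2
      rw [Nat.succ_mul] at this
      omega
    · intro e0
      have e2 := h.inj _ (e1 i a p hp).1.1 _ (e1 i a q hq).1.1 e0
      by_cases e3 : p.1 = q.1
      · have := (c3 _ hq).2.2
        obtain ⟨p, _ | _⟩ := p <;> obtain ⟨q, _ | _⟩ := q <;> simp only at e3 <;> subst e3 <;>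
          simp [e] at e2 hne this <;> omega
      · have := sep i a i a _ hp _ hq e3
        have := e1 i a p hp
        have := e1 i a q hq
        omega
    · have f1 : lo i b < M := (e1 i a (b, false) hb).1.1
      have f2 : hi i b < M := (e1 i a (b, true) hb).1.1
      have f3 := (c3 b hb).2.2
      obtain ⟨u1, ⟨u, u2, v, u3, u4⟩, u5⟩ := h.ec _ f1
      obtain ⟨w1, ⟨w, w2, z, w3, w4⟩, w5⟩ := h.ec _ f2
      refine (((LP.one u1 u5 u2).cat (chain h.bc h.bdj h.bt u3 (Nat.mul_le_mul_right s f3.le)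
        (Nat.mul_lt_mul_of_pos_right f2 hs) z w3) ((disjoint_biUnion_right _ _ _).2 fun w hw =>
          h.eb _ f1 w (lt i a b hb w hw)) u4).cat (LP.one w1 w2 w5) (disjoint_union_left.2
        ⟨h.ed _ f1 _ f2 f3.ne, (disjoint_biUnion_left _ _ _).2 fun w hw =>
          (h.eb _ f2 w (lt i a b hb w hw)).symm⟩) w4.symm).mono subset_rfl ?_
      rw [Nat.sub_mul]
      omega
  · have k : ∀ i < c, ∀ i' < c, ∀ j ∈ Ico (l0 i') l, ∀ b ∈ A i, Disjoint (S i b) (Ω i' j) :=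
      fun i a i' a' j hj b hb => (s1 i a b hb j (mem_Ico.1 hj).2).mono_right
        ((g1 i' a').2.2.2.2 j (mem_Ico.1 hj).1 (mem_Ico.1 hj).2).1
    simp only [disjoint_union_left, disjoint_union_right, disjoint_biUnion_left,
      disjoint_biUnion_right]
    refine ⟨fun b' hb' => ⟨fun b hb => s2 i a i' a' b hb b' hb' (ne_of_mem_of_not_mem hb
      (disjoint_right.1 (a2 i a i' a' hne) hb')), fun j hj => (k i' a' i a j hj b' hb').symm⟩,
      fun j' hj' => ⟨k i a i' a' j' hj', fun j hj => ?_⟩⟩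
    rw [mem_Ico] at hj hj'
    by_cases e : j = j'
    · subst e
      exact (g2 i a i' a' hne).2 j hj.1 hj'.1 hj.2
    · exact (h.pos.disj j (by omega) j' (by omega) e).mono
        ((g1 i a).2.2.2.2 j hj.1 hj.2).1 ((g1 i' a').2.2.2.2 j' hj'.1 hj'.2).1

theorem main_nat (c q : ℕ) : ∃ g : ℕ, ∀ ℓ : Fin c → ℕ, ∀ (V : Type) [Fintype V]
    (G : SimpleGraph V), (q + 1) * ∑ i, ℓ i ≤ q * treewidth G → g ≤ treewidth G →
    IsMinor (cycles ℓ) G := by
  obtain ⟨t, ht⟩ : ∃ t, t = 4 * (q + 1) := ⟨_, rfl⟩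
  obtain ⟨M, hM, hDM, hcol⟩ := col c (2 * (c + 1) * t) (by subst ht; positivity)
  obtain ⟨y0, hy⟩ := frame (c * (2 ^ M * M)) M (2 * (t * (M + 1))) hM
  refine ⟨t * (M + 1) * (y0 + 1) + t * M, fun ℓ V _ G h1 h2 => ?_⟩
  have t0 : 0 < t := by omega
  have W0 : 0 < t * (M + 1) := by positivity
  obtain ⟨K, β, k1, k2, k3⟩ := dual (G := G) (lt_of_lt_of_le (by positivity) h2)
  obtain ⟨y, y1, y2⟩ : ∃ y, t * (M + 1) * y ≤ K ∧ K < t * (M + 1) * (y + 1) :=
    ⟨K / (t * (M + 1)), Nat.mul_div_le _ _, Nat.lt_mul_div_succ _ W0⟩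
  have y3 : y0 + 1 < y + 1 := Nat.lt_of_mul_lt_mul_left (a := t * (M + 1)) (by omega)
  obtain ⟨u, hu⟩ : ∃ u, u = (M + 1) * y := ⟨_, rfl⟩
  rw [mul_assoc, ← hu] at y1
  have u1 : u ≤ K := le_trans (Nat.le_mul_of_pos_left _ t0) y1
  obtain ⟨s, s1, s2⟩ : ∃ s, M * s ≤ K - u ∧ K - u < M * (s + 1) :=
    ⟨(K - u) / M, Nat.mul_div_le _ _, Nat.lt_mul_div_succ _ hM⟩
  have s3 : K ≤ M * s + M + u := by rw [mul_add] at s2; omega
  have s4 : t * M ≤ K := by omega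
  have s5 : t * K ≤ t * (M * s) + 2 * K := by nlinarith
  have s0 : 0 < s := Nat.pos_of_ne_zero fun e => by
    subst e
    nlinarith
  obtain ⟨B, E, π, C, hF⟩ := hy y s k2 k3 (by nlinarith) (by omega) s0 (by
    rw [add_mul] at hu; omega)
  obtain ⟨Y, f1, f2⟩ := hF.cyc hM (by positivity) s0 hcol
    (fun i => if h : i < c then ℓ ⟨i, h⟩ else 0) (by
      obtain ⟨n, hn⟩ : ∃ n, n = ∑ i, ℓ i := ⟨_, rfl⟩
      obtain ⟨a, ha⟩ : ∃ a, a = ∑ i, ℓ i / s := ⟨_, rfl⟩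
      obtain ⟨b, hb⟩ : ∃ b, b = M / (2 * (c + 1) * t) := ⟨_, rfl⟩
      have a1 : s * a ≤ n := by
        rw [ha, hn, mul_sum]
        exact sum_le_sum fun i _ => Nat.mul_div_le _ _
      have b1 : 2 * (c + 1) * t * b ≤ M := hb ▸ Nat.mul_div_le _ _
      have b2 : 2 ≤ b := hb ▸ (Nat.le_div_iff_mul_le (by positivity)).2 hDM
      rw [← hb, sum_range fun i => (if h : i < c then ℓ ⟨i, h⟩ else 0) / s + 1 + (b + 1)]
      simp only [Fin.is_lt, dif_pos, add_assoc, sum_add_distrib, ← ha, sum_const, card_univ,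
        Fintype.card_fin, smul_eq_mul]
      rw [← hn] at h1
      have c1 : t * (c * 1 + (c * b + c * 1)) ≤ M := by nlinarith [Nat.mul_le_mul_left (c * t) b2]
      have c2 : t * n + 4 * K ≤ t * K := by nlinarith
      have c3 : M * s ≤ K := by omega
      have c4 : s * (t * a + M) ≤ s * (t * M) := by nlinarith
      have c5 := Nat.le_of_mul_le_mul_left c4 s0
      exact Nat.le_of_mul_le_mul_left (by rw [mul_add]; omega) t0)
  have f3 : ∀ i : Fin c, ModelIn (SimpleGraph.cycleGraph (ℓ i)) G (Y i) := fun i => by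
    have := f1 i i.2
    rwa [dif_pos i.2] at this
  choose φ p1 p2 p3 p4 using f3
  refine ModelIn.isMinor (S := univ) ⟨fun x => φ x.1 x.2, fun _ => subset_univ _,
    fun x => p2 _ _, ?_, ?_⟩
  · rintro ⟨i, a⟩ ⟨j, b⟩ hne
    by_cases e : i = j
    · subst e
      exact p3 i a b fun e => hne (by rw [e])
    · exact (f2 i i.2 j j.2 (Fin.val_ne_of_ne e)).mono (p1 i a) (p1 j b)
  · rintro _ _ ⟨i, a, b, rfl, rfl, h⟩
    exact p4 i a b h

theorem main_real (c : ℕ) (ε : ℝ) (hε : 0 < ε) : ∃ g : ℕ, ∀ ℓ : Fin c → ℕ,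
    ∀ (V : Type) [Fintype V] (G : SimpleGraph V),
    (1 + ε) * (∑ i, ℓ i : ℕ) + g ≤ treewidth G → IsMinor (cycles ℓ) G := by
  obtain ⟨q, hq⟩ := exists_nat_ge (1 / ε)
  obtain ⟨g, hg⟩ := main_nat c q
  rw [div_le_iff₀ hε] at hq
  refine ⟨g, fun ℓ V _ G h => hg ℓ V G ?_ ?_⟩
  · have h0 : (0 : ℝ) ≤ (∑ i, ℓ i : ℕ) := Nat.cast_nonneg _
    have h1 : (0 : ℝ) ≤ q := Nat.cast_nonneg _
    have h2 : (0 : ℝ) ≤ g := Nat.cast_nonneg _
    have : ((q : ℝ) + 1) * (∑ i, ℓ i : ℕ) ≤ q * treewidth G := by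
      nlinarith [mul_le_mul_of_nonneg_left h h1, mul_le_mul_of_nonneg_right hq h0, mul_nonneg h1 h2]
    exact_mod_cast this
  · have : (0 : ℝ) ≤ (1 + ε) * (∑ i, ℓ i : ℕ) := by positivity
    exact_mod_cast (show (g : ℝ) ≤ treewidth G by linarith)

end Pool.Agent.MP_7be75d_co.Cy
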