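import Pool.Agent.MP_7be75d_co.cy.Grow
import Pool.Agent.MP_7be75d_co.Gen.Tools

/-! A long path model attached at regularly spaced places to a path-of-sets system. -/

namespace Pool.Agent.MP_7be75d_co.Cy

open Finset
open scoped Classical

variable {V : Type} {G : SimpleGraph V}

theorem select {κ : Type} [Fintype κ] {U : Finset V} {K : ℕ} {β : Finset V → Finset V}
    (h : Haven G U K β) (X : κ → Finset V) (hK : 2 * Fintype.card κ ≤ K) (v0 : V)
    (hX : ∀ k, ∀ Z : Finset V, Z.card < Fintype.card κ → ∃ v ∈ X k, v ∈ β Z) (s : Finset κ) :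
    ∃ q : κ → V, (∀ k ∈ s, q k ∈ X k ∧ q k ∈ U) ∧ Gen.Free β K (s.image q) := by
  induction s using Finset.induction_on with
  | empty => exact ⟨fun _ => v0, by simp, fun Z _ => by simp⟩
  | insert k s hk ih =>
    obtain ⟨q, h1, h2⟩ := ih
    have c1 : (s.image q).card ≤ s.card := card_image_le
    have c2 := card_le_univ (insert k s)
    rw [card_insert_of_notMem hk] at c2
    obtain ⟨v, v1, v2, -, v4⟩ := Gen.Tools.free_step (X := X k) h
      (image_subset_iff.2 fun i hi => (h1 i hi).2) (by omega) h2 fun Z hZ => hX k Z (by omega)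
    have e : ∀ i ∈ s, Function.update q k v i = q i := fun i hi =>
      Function.update_of_ne (ne_of_mem_of_not_mem hi hk) _ _
    refine ⟨Function.update q k v, fun i hi => ?_, ?_⟩
    · rcases mem_insert.1 hi with rfl | hi
      · rw [Function.update_self]; exact ⟨v1, v2⟩
      · rw [e i hi]; exact h1 i hi
    · rwa [image_insert, Function.update_self, image_congr fun i hi => e i hi]

/-- A path model `B` with `M * s` branch sets, joined at the places `k * s` by the sets `E k` to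
the lanes of a path-of-sets system. -/
structure Frame (G : SimpleGraph V) (l M s : ℕ) (B E : ℕ → Finset V) (π : ℕ → Fin M)
    (C : ℕ → CD V (Fin M)) : Prop where
  pos : PoS G (l + 1) C
  bc : ∀ w < M * s, Conn G (B w)
  bdj : ∀ w < M * s, ∀ w' < M * s, w ≠ w' → Disjoint (B w) (B w')
  bt : ∀ w, w + 1 < M * s → Touch G (B w) (B (w + 1))
  ec : ∀ k < M, Conn G (E k) ∧ Touch G (E k) (B (k * s)) ∧ (C l).a (π k) ∈ E k
  ed : ∀ k < M, ∀ k' < M, k ≠ k' → Disjoint (E k) (E k')
  eb : ∀ k < M, ∀ w < M * s, Disjoint (E k) (B w)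
  er : ∀ k < M, ∀ j < l, Disjoint (E k) (C j).reg
  br : ∀ w < M * s, ∀ j < l, Disjoint (B w) (C j).reg
  inj : ∀ k < M, ∀ k' < M, π k = π k' → k = k'
  surj : ∀ i, ∃ k < M, π k = i

theorem frame (l M ρ : ℕ) (hM : 0 < M) : ∃ y0 : ℕ, ∀ {V : Type} [Fintype V] {G : SimpleGraph V}
    {K : ℕ} {β : Finset V → Finset V} (y s : ℕ), TH G K β → Sep G K → K ≤ ρ * y → y0 ≤ y → 0 < s →
    M * s + M * y + y ≤ K → ∃ B E π C, Frame G l M s B E π C := by
  obtain ⟨lam, hlam⟩ := exists_pos (l + 1) (ρ * mu ρ)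
  refine ⟨mu ρ * (lam * (M + 1)) + mu ρ + 4 * M, fun {V} _ {G K β} y s ⟨h, ht⟩ hσ hρ hy hs hK => ?_⟩
  have hy0 : 0 < y := by omega
  let par : ℕ → ℕ := fun w => if w < M * s then w - 1 else (w - M * s) / y * s
  have par1 : ∀ w < M * s + M * y, par w ≤ w := fun w hw => by
    simp only [par]
    split_ifs with h1
    · omega
    · have : (w - M * s) / y < M := (Nat.div_lt_iff_lt_mul hy0).2 (by omega)
      have := Nat.mul_le_mul_right s this.le
      omega
  let J : SimpleGraph ℕ := SimpleGraph.fromRel fun a b => b = par a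
  obtain ⟨v0, -⟩ := (h.conn ∅ (by rw [card_empty]; omega)).1
  obtain ⟨F, B, hg, hF⟩ := grow (J := J) (J0 := range (M * s + M * y)) ⟨empty_subset _, by
    intro S _ h1 h2
    have hne := nonempty_iff_ne_empty.2 h2
    refine ⟨S.max' hne, max'_mem _ _, notMem_empty _, ?_⟩
    have key : ∀ x ∈ S, J.Adj (S.max' hne) x → x = par (S.max' hne) := fun x hx ha => by
      obtain ⟨a, b | b⟩ := (SimpleGraph.fromRel_adj _ _ _).1 ha
      · exact b
      · have := par1 x (mem_range.1 (h1 hx))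
        have := le_max' S x hx
        omega
    exact fun x hx y hy a b => (key x hx a).trans (key y hy b).symm⟩ h ht
    (by rw [card_range]; omega) fun _ => v0
  have : Nonempty V := ⟨v0⟩
  choose! z z1 z2 using hg.top
  have hb := hg.card
  rw [card_range] at hb
  let T := (Ico (M * s) (M * s + M * y)).image z
  have mT : ∀ v ∈ (univ \ F) ∪ T, ∀ w < M * s + M * y, v ∈ B w → M * s ≤ w ∧ v = z w := by
    intro v hv w hw h1
    have hw' := mem_range.2 hw
    obtain ⟨u, h2, rfl⟩ := mem_image.1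
      ((mem_union.1 hv).resolve_left fun h => (mem_sdiff.1 h).2 (hg.sub w hw' h1))
    have hu := mem_range.2 (mem_Ico.1 h2).2
    obtain rfl : u = w := by_contra fun hc => disjoint_left.1 (hg.disj u hu w hw' hc) (z2 u hu) h1
    exact ⟨(mem_Ico.1 h2).1, rfl⟩
  obtain ⟨β0, h0, f0⟩ := hF.outside h (T := T) (K' := y)
    (image_subset_iff.2 fun w hw => z1 w (mem_range.2 (mem_Ico.1 hw).2)) (by omega)
  set U0 := (univ \ F) ∪ T
  obtain ⟨F1, K1, β1, t1, b1, h1, x1, k1⟩ := descend h0 hσ hρ (by omega)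
  obtain ⟨C, e, hC, hCs, he, he', heb⟩ := hlam (ι := Fin M) (X := bd G U0 F1) h1 hσ
    (hρ.trans (by rw [mul_assoc]; exact Nat.mul_le_mul_left _ k1)) (fun Z hZ => by
      obtain ⟨x, hx⟩ := card_pos.1 (Nat.pos_of_mul_pos_left (Nat.zero_lt_of_lt (x1 Z hZ)))
      exact ⟨x, mem_inter.1 hx⟩)
    (by rw [Fintype.card_fin]; exact Nat.le_of_mul_le_mul_left (by omega) (mu_pos ρ))
  obtain ⟨β2, h2, f2⟩ := t1.outside h0 (T := univ.image e) (K' := 2 * M)
    (image_subset_iff.2 fun i _ => he' i) (by omega)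
  have win : ∀ k : Fin M, ∀ w ∈ Ico (M * s + k * y) (M * s + k * y + y),
      (M * s ≤ w ∧ w < M * s + M * y) ∧ (w - M * s) / y = k := fun k w hw => by
    have := Nat.mul_le_mul_right y (Nat.succ_le_of_lt k.2)
    rw [Nat.succ_mul] at this
    rw [mem_Ico] at hw
    refine ⟨by omega, Nat.div_eq_of_lt_le (by omega) (by rw [Nat.succ_mul]; omega)⟩
  obtain ⟨q, q1, q2⟩ := select h2
    (fun k : Fin M => (Ico (M * s + k * y) (M * s + k * y + y)).image z \ F1) (by simp) v0 (by
      intro k Z hZ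
      rw [Fintype.card_fin] at hZ
      have c1 : (Z ∪ bd G U0 F1).card < y := by have := card_union_le Z (bd G U0 F1); omega
      have c2 : ((Ico (M * s + k * y) (M * s + k * y + y)).image z).card = y := by
        rw [card_image_of_injOn, Nat.card_Ico, Nat.add_sub_cancel_left]
        intro a ha b hb hab
        have ha := mem_range.2 (win k a ha).1.2
        have hb := mem_range.2 (win k b hb).1.2
        exact by_contra fun hc => disjoint_left.1 (hg.disj a ha b hb hc) (z2 a ha) (hab ▸ z2 b hb)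
      obtain ⟨v, v1, v2⟩ := exists_not_mem_of_card_lt (((f0 _ c1).2.trans_lt c1).trans_eq c2.symm)
      have v3 : v ∈ β0 (Z ∪ bd G U0 F1) := by_contra fun hc => v2 (mem_sdiff.2 ⟨image_subset_image
        (fun w hw => mem_Ico.2 (win k w hw).1) v1, hc⟩)
      exact ⟨v, mem_sdiff.2 ⟨v1, disjoint_left.1 (t1.1.disj h0 subset_union_right c1) v3⟩,
        (f2 Z (by omega)).1 v3⟩) univ
  choose w w1 w2 using fun k => mem_image.1 (mem_sdiff.1 (q1 k (mem_univ _)).1).1
  have w3 : ∀ k, q k ∉ F1 := fun k => (mem_sdiff.1 (q1 k (mem_univ _)).1).2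
  have w4 : ∀ k, w k ∈ range (M * s + M * y) := fun k => mem_range.2 (win k _ (w1 k)).1.2
  have w5 : ∀ k k', k ≠ k' → Disjoint (B (w k)) (B (w k')) := fun k k' hk =>
    hg.disj _ (w4 k) _ (w4 k') fun e => hk (Fin.ext (by
      rw [← (win k _ (w1 k)).2, ← (win k' _ (w1 k')).2, e]))
  have w6 : ∀ k, q k ∈ B (w k) := fun k => w2 k ▸ z2 _ (w4 k)
  obtain ⟨P, π, p1, p2⟩ := Gen.link q e h2 (by simp; omega)
    (fun a b hab => by_contra fun hc => disjoint_left.1 (w5 a b hc) (w6 a) (hab ▸ w6 b)) he q2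
    fun Z hZ => le_trans (card_le_card fun v hv => mem_sdiff.2 (mem_filter.1 hv)) (f2 Z hZ).2
  have cl := hC.cl l (Nat.lt_succ_self _)
  have eb : ∀ i, e i ∈ (C l).lane i := fun i => heb l rfl ▸ cl.mb i
  have r0 : ∀ j < l + 1, (C j).reg ⊆ U0 := fun j hj => (hCs j hj).trans t1.1.1
  have s1 : ∀ k, ∀ v ∈ P k, v ∈ U0 ∧ (v ∈ F1 → v = e (π k)) := fun k v hv => by
    rcases mem_union.1 (h2.subU (by simp; omega) ((p1 k).1 hv)) with h | h
    · exact ⟨(mem_sdiff.1 h).1, fun hc => absurd hc (mem_sdiff.1 h).2⟩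
    · obtain ⟨i, -, rfl⟩ := mem_image.1 h
      refine ⟨t1.1.1 (bd_subset (he' i)), fun _ => ?_⟩
      obtain ⟨k', rfl⟩ := π.surjective i
      rw [show k' = k from by_contra fun hc => disjoint_left.1 (p2 k' k hc) (p1 k').2.2.2 hv]
  have s2 : ∀ k, ∀ v ∈ B (w k), v ∈ U0 → v = q k := fun k v hv hU =>
    (mT v hU _ (mem_range.1 (w4 k)) hv).2.trans (w2 k)
  have s3 : ∀ k, ∀ j < l + 1, Disjoint (B (w k)) (C j).reg := fun k j hj =>
    disjoint_left.2 fun v a b => w3 k (s2 k v a (r0 j hj b) ▸ hCs j hj b)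
  have s4 : ∀ u < M * s, Disjoint U0 (B u) := fun u hu => disjoint_left.2 fun v a b =>
    absurd (mT v a u (by omega) b).1 (by omega)
  let r : ℕ → Fin M := fun k => ⟨k % M, Nat.mod_lt _ hM⟩
  have r1 : ∀ k < M, (r k).1 = k := fun k hk => Nat.mod_eq_of_lt hk
  have r2 : ∀ k < M, ∀ k' < M, r k = r k' → k = k' := fun k hk k' hk' e => by
    rw [← r1 k hk, ← r1 k' hk', e]
  have g1 : ∀ u < M * s, u ∈ range (M * s + M * y) := fun u hu => mem_range.2 (by omega)
  refine ⟨B, fun k => B (w (r k)) ∪ P (r k) ∪ (C l).lane (π (r k)), fun k => π (r k), C, hC,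
    fun u hu => hg.conn u (g1 u hu), fun u hu u' hu' => hg.disj u (g1 u hu) u' (g1 u' hu'),
    fun u hu => hg.adj u (g1 u (by omega)) _ (g1 _ hu) ?_ (notMem_empty _), fun k hk => ⟨?_, ?_,
      mem_union_right _ (cl.ma _)⟩, fun k hk k' hk' hne => ?_, fun k hk u hu => ?_,
    fun k hk j hj => ?_, fun u hu j hj => ((s4 u hu).mono_left (r0 j (by omega))).symm,
    fun k hk k' hk' e => r2 k hk k' hk' (π.injective e), fun i => ?_⟩
  · exact (SimpleGraph.fromRel_adj _ _ _).2 ⟨by omega, Or.inr (by simp [par, hu])⟩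
  · exact ((hg.conn _ (w4 _)).union (p1 _).2.1 (w6 _) (p1 _).2.2.1).union (cl.conn _)
      (mem_union_right _ (p1 _).2.2.2) (eb _)
  · have a := win _ _ (w1 (r k))
    have b : k * s < M * s := Nat.mul_lt_mul_of_pos_right hk hs
    refine (hg.adj _ (w4 (r k)) _ (g1 _ b) ((SimpleGraph.fromRel_adj _ _ _).2 ⟨by omega, Or.inl ?_⟩)
      (notMem_empty _)).mono (subset_union_left.trans subset_union_left) subset_rfl
    simp only [par]
    rw [if_neg (by omega), a.2, r1 k hk]
  · have hne' : r k ≠ r k' := fun e => hne (r2 k hk k' hk' e)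
    have a : ∀ i j, i ≠ j → Disjoint (B (w i)) (P j) := fun i j hij => disjoint_left.2 fun v a b =>
      disjoint_left.1 (p2 i j hij) (p1 i).2.2.1 (s2 i v a (s1 j v b).1 ▸ b)
    have b : ∀ i j, Disjoint (B (w i)) ((C l).lane j) := fun i j =>
      (s3 i l (by omega)).mono_right (cl.sub j)
    have c : ∀ i j, i ≠ j → Disjoint (P i) ((C l).lane (π j)) := fun i j hij =>
      disjoint_left.2 fun v a b => disjoint_left.1 (cl.disj _ _ (π.injective.ne hij)) (eb _)
        ((s1 i v a).2 (hCs l (by omega) (cl.sub _ b)) ▸ b)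
    simp only [disjoint_union_left, disjoint_union_right]
    exact ⟨⟨⟨⟨w5 _ _ hne', (a _ _ hne'.symm).symm⟩, (b _ _).symm⟩,
      ⟨a _ _ hne', p2 _ _ hne'⟩, (c _ _ hne'.symm).symm⟩, ⟨b _ _, c _ _ hne'⟩,
      cl.disj _ _ (π.injective.ne hne')⟩
  · have a := win _ _ (w1 (r k))
    simp only [disjoint_union_left]
    exact ⟨⟨hg.disj _ (w4 _) _ (g1 u hu) (by omega), (s4 u hu).mono_left fun v hv => (s1 _ v hv).1⟩,
      (s4 u hu).mono_left ((cl.sub _).trans (r0 l (by omega)))⟩
  · have a := hC.disj l (by omega) j (by omega) (by omega)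
    simp only [disjoint_union_left]
    exact ⟨⟨s3 _ j (by omega), disjoint_left.2 fun v b c => disjoint_left.1 a (cl.sub _ (eb _))
      ((s1 _ v b).2 (hCs j (by omega) c) ▸ c)⟩, a.mono_left (cl.sub _)⟩
  · obtain ⟨k, rfl⟩ := π.surjective i
    exact ⟨k, k.2, congrArg π (Fin.ext (r1 k k.2))⟩

end Pool.Agent.MP_7be75d_co.Cy
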