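import Pool.Agent.MP_7be75d_co.cy.Dual

/-! Growing a forest inside a tight set, without loss, for touching havens. -/

namespace Pool.Agent.MP_7be75d_co.Cy

open Finset
open scoped Classical

variable {V : Type} {G : SimpleGraph V} {U F F' Z : Finset V} {K : ℕ} {β : Finset V → Finset V}

theorem small_sub (hF : Small G U K β F) (h : Haven G U K β)
    (ht : ∀ Z Z' : Finset V, Z.card < K → Z'.card < K → Near G (β Z) (β Z'))
    (hF' : F' ⊆ F) (hK : (bd G U F').card < K) : Small G U K β F' := by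
  refine ⟨hF'.trans hF.1, hK, disjoint_left.2 fun v hv hvF => ?_⟩
  have h1 : β (bd G U F') ⊆ F' := (h.conn _ hK).subset_of_closed hv hvF fun x hx y hy hx' hxy =>
    mem_of_not_mem_bd hx (h.not_mem hK hx') (h.subU hK hy) hxy
  obtain ⟨x, hx, y, hy, e⟩ := ht _ _ hK hF.2.1
  refine disjoint_left.1 hF.2.2 hy (hF' ?_)
  exact e.elim (fun e => e ▸ h1 hx)
    (mem_of_not_mem_bd (h1 hx) (h.not_mem hK hx) (h.subU hF.2.1 hy))

theorem push (hF : Tight G U K β F) (h : Haven G U K β)
    (ht : ∀ Z Z' : Finset V, Z.card < K → Z'.card < K → Near G (β Z) (β Z'))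
    (hF' : Small G U K β F') (hFF : F ⊆ F') (hZ : Z.card < (bd G U F).card) :
    Joined G ((F' \ F) ∪ bd G U F) (bd G U F) (bd G U F') Z := by
  by_contra hj
  set U1 := (F' \ F) ∪ bd G U F with hU1
  let A := U1.filter fun v => ∃ a ∈ bd G U F, a ∈ U1 \ Z ∧ R G (U1 \ Z) a v
  have hU1F : U1 ⊆ F' := union_subset sdiff_subset (bd_subset.trans hFF)
  have hsub : F ∪ A ∪ Z ∩ F' ⊆ F' :=
    union_subset (union_subset hFF ((filter_subset _ _).trans hU1F)) inter_subset_right
  have hb : bd G U (F ∪ A ∪ Z ∩ F') ⊆ Z := by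
    intro v hv
    obtain ⟨h3, u, hu, h4, h5⟩ := mem_bd.1 hv
    by_contra hz
    simp only [mem_union, mem_inter, not_or, not_and] at h3 h4
    have hvA : ∃ a ∈ bd G U F, a ∈ U1 \ Z ∧ R G (U1 \ Z) a v := by
      rcases h3 with (h3 | h3) | h3
      · have hb : v ∈ bd G U F := mem_bd.2 ⟨h3, u, hu, h4.1.1, h5⟩
        exact ⟨v, hb, mem_sdiff.2 ⟨mem_union_right _ hb, hz⟩, R.refl⟩
      · exact (mem_filter.1 h3).2
      · exact absurd h3.1 hz
    obtain ⟨a, ha, ha1, ha2⟩ := hvA
    have hv1 := ha2.mem ha1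
    have huF : u ∈ F' := mem_of_not_mem_bd (hU1F (mem_sdiff.1 hv1).1)
      (fun hc => hj ⟨a, ha, v, hc, ha1, ha2⟩) hu h5
    have hu1 : u ∈ U1 := mem_union_left _ (mem_sdiff.2 ⟨huF, h4.1.1⟩)
    exact h4.1.2 (mem_filter.2 ⟨hu1, a, ha, ha1,
      ha2.tail h5 hv1 (mem_sdiff.2 ⟨hu1, fun hc => h4.2 hc huF⟩)⟩)
  have hc := card_le_card hb
  have := hF.2 _ (subset_union_left.trans subset_union_left) (small_sub hF' h ht hsub (by have := hF.1.2.1; omega))
  omega

variable {W : Type} {J : SimpleGraph W} {I S : Finset W} {p : W → V} {B : W → Finset V}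

theorem extend [Fintype V] (h : Haven G U K β)
    (ht : ∀ Z Z' : Finset V, Z.card < K → Z'.card < K → Near G (β Z) (β Z'))
    (hg : Gr G U K β J I p S F B) (hI : I ⊆ S) (hF : Tight G U K β F) :
    ∃ F' B', Gr G U K β J I p S F' B' ∧
      ∀ F'', F' ⊆ F'' → Small G U K β F'' → (bd G U F'').card ≤ S.card → F'' = F' := by
  obtain ⟨F', ⟨h1, h2, h3⟩, h4⟩ := exists_max_of
    (p := fun F' => F ⊆ F' ∧ Small G U K β F' ∧ (bd G U F').card ≤ S.card) (fun F' => F'.card)
    U.card (fun F' hF' => card_le_card hF'.2.1.1) ⟨F, subset_rfl, hg.small, hg.card.le⟩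
  have h5 : (bd G U F').card = S.card := le_antisymm h3 (hg.card ▸ hF.2 F' h1 h2)
  choose z hz1 hz2 using fun w : S => hg.top w.1 w.2
  have hinj : Function.Injective z := by
    intro i j hij
    by_contra hne
    exact disjoint_left.1 (hg.disj _ i.2 _ j.2 fun e => hne (Subtype.ext e)) (hz2 i) (hij ▸ hz2 j)
  have him : univ.image z = bd G U F := by
    refine eq_of_subset_of_card_le (image_subset_iff.2 fun i _ => hz1 i) ?_
    rw [card_image_of_injective _ hinj, card_univ, Fintype.card_coe, hg.card]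
  obtain ⟨P, hP, hP'⟩ := menger_from (G := G) (U := (F' \ F) ∪ bd G U F) (B := bd G U F') z (by
    intro Z hZ
    rw [him]
    rw [Fintype.card_coe] at hZ
    exact push hF h ht h2 h1 (by rw [hg.card]; exact hZ))
  have key : ∀ (w : W) (hw : w ∈ S) (w' : S), w ≠ w'.1 → Disjoint (B w) (P w') := by
    intro w hw w' hne
    rw [disjoint_left]
    intro v h6 h7
    rcases mem_union.1 (hP.sub w' h7) with h8 | h8
    · exact (mem_sdiff.1 h8).2 (hg.sub w hw h6)
    · rw [← him] at h8
      obtain ⟨j, -, rfl⟩ := mem_image.1 h8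
      by_cases hj : j = w'
      · subst hj
        exact disjoint_left.1 (hg.disj w hw _ j.2 hne) h6 (hz2 j)
      · exact disjoint_left.1 (hP.disj j w' hj) (hP' j) h7
  have hs : ∀ w ∈ S, B w ⊆ if hw : w ∈ S then B w ∪ P ⟨w, hw⟩ else ∅ := fun w hw => by
    rw [dif_pos hw]; exact subset_union_left
  refine ⟨F', fun w => if hw : w ∈ S then B w ∪ P ⟨w, hw⟩ else ∅, ⟨h2, h5, fun w hw => ?_,
    fun w hw => ?_, fun w hw => ?_, fun w hw w' hw' hne => ?_,
    fun w hw => hs w (hI hw) (hg.root w hw),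
    fun w hw w' hw' ha hI => (hg.adj w hw w' hw' ha hI).mono (hs w hw) (hs w' hw')⟩,
    fun F'' h6 h7 h8 => (eq_of_subset_of_card_le h6 (h4 F'' ⟨h1.trans h6, h7, h8⟩)).symm⟩
  · rw [dif_pos hw]
    exact union_subset ((hg.sub w hw).trans h1)
      ((hP.sub _).trans (union_subset sdiff_subset (bd_subset.trans h1)))
  · rw [dif_pos hw]
    exact (hg.conn w hw).union (hP.conn _) (hz2 ⟨w, hw⟩) (hP' _)
  · rw [dif_pos hw]
    obtain ⟨b, h6, h7⟩ := hP.right ⟨w, hw⟩
    exact ⟨b, h6, mem_union_right _ h7⟩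
  · rw [dif_pos hw, dif_pos hw', disjoint_union_left, disjoint_union_right, disjoint_union_right]
    exact ⟨⟨hg.disj w hw w' hw' hne, key w hw ⟨w', hw'⟩ hne⟩, (key w' hw' ⟨w, hw⟩ hne.symm).symm,
      hP.disj _ _ fun e => hne (congrArg Subtype.val e)⟩

theorem grow [Fintype V] {J0 : Finset W} (hP : Peel J ∅ J0) (h : Haven G U K β)
    (ht0 : ∀ Z Z' : Finset V, Z.card < K → Z'.card < K → Near G (β Z) (β Z'))
    (hK : J0.card < K) (p : W → V) :
    ∃ F B, Gr G U K β J ∅ p J0 F B ∧ Tight G U K β F := by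
  obtain ⟨I, hI0⟩ : ∃ I : Finset W, I = ∅ := ⟨_, rfl⟩
  have hinj : Set.InjOn p I := by simp [hI0]
  have hpU : ∀ w ∈ I, p w ∈ U := by simp [hI0]
  have hind : ∀ Z : Finset V, Z.card < K → (I.filter fun w => p w ∉ β Z).card ≤ Z.card := by
    simp [hI0]
  rw [← hI0] at hP ⊢
  clear hI0
  have main : ∀ n, ∀ S : Finset W, S.card = n → I ⊆ S → S ⊆ J0 → ∃ F' B',
      Gr G U K β J I p S F' B' ∧
      ∀ F'', F' ⊆ F'' → Small G U K β F'' → (bd G U F'').card ≤ S.card → F'' = F' := by
    intro n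
    induction n using Nat.strong_induction_on with
    | _ n ih =>
    intro S hn hI hS
    have hc := card_le_card hS
    by_cases hSI : S = I
    · subst hSI
      have e1 : (S.image p).card = S.card := card_image_of_injOn hinj
      have hs : Small G U K β (S.image p) := h.tiny (image_subset_iff.2 hpU) (by omega)
      have ht : ∀ F', S.image p ⊆ F' → Small G U K β F' → S.card ≤ (bd G U F').card := by
        intro F' h1 h2
        refine le_trans (card_le_card fun w hw => ?_) (hind _ h2.2.1)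
        rw [mem_filter]
        exact ⟨hw, fun hc => disjoint_left.1 h2.2.2 hc (h1 (mem_image_of_mem _ hw))⟩
      have e2 : bd G U (S.image p) = S.image p :=
        eq_of_subset_of_card_le bd_subset (e1 ▸ ht _ subset_rfl hs)
      refine extend h ht0 (F := S.image p) (B := fun w => {p w}) ⟨hs, by rw [e2, e1],
        fun w hw => singleton_subset_iff.2 (mem_image_of_mem _ hw), fun w _ => Conn.singleton _,
        fun w hw => ⟨p w, e2.symm ▸ mem_image_of_mem _ hw, mem_singleton_self _⟩,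
        fun w hw w' hw' hne => disjoint_singleton.2 fun e => hne (hinj hw hw' e),
        fun w _ => mem_singleton_self _, fun w hw _ _ _ hI => absurd hw hI⟩ subset_rfl
        ⟨hs, fun F' h1 h2 => by rw [e2, e1]; exact ht F' h1 h2⟩
    obtain ⟨w, hw, hwI, hu⟩ := hP.2 S hI hS hSI
    have e1 := card_erase_add_one hw
    obtain ⟨F, B, hg, hmax⟩ := ih (S.erase w).card (by omega) (S.erase w) rfl
      (fun x hx => mem_erase.2 ⟨fun e => hwI (e ▸ hx), hI hx⟩) ((erase_subset _ _).trans hS)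
    obtain ⟨v, hvU, hvF, hv⟩ : ∃ v ∈ U, v ∉ F ∧
        ∀ u ∈ S.erase w, J.Adj w u → ∃ z ∈ B u, G.Adj v z := by
      by_cases hex : ∃ u ∈ S.erase w, J.Adj w u
      · obtain ⟨u, h1, h2⟩ := hex
        obtain ⟨z, h3, h4⟩ := hg.top u h1
        obtain ⟨-, v, h5, h6, h7⟩ := mem_bd.1 h3
        refine ⟨v, h5, h6, fun u' h8 h9 => ?_⟩
        rw [hu u' (mem_of_mem_erase h8) u (mem_of_mem_erase h1) h9 h2]
        exact ⟨z, h4, h7.symm⟩
      · obtain ⟨v, hv⟩ := (h.conn _ hg.small.2.1).1
        exact ⟨v, h.subU hg.small.2.1 hv, disjoint_left.1 hg.small.2.2 hv,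
          fun u h1 h2 => absurd ⟨u, h1, h2⟩ hex⟩
    have hb : bd G U (insert v F) ⊆ insert v (bd G U F) := by
      intro x hx
      obtain ⟨h1, y, h2, h3, h4⟩ := mem_bd.1 hx
      rcases mem_insert.1 h1 with h1 | h1
      · exact mem_insert.2 (Or.inl h1)
      · exact mem_insert_of_mem (mem_bd.2 ⟨h1, y, h2, fun h => h3 (mem_insert_of_mem h), h4⟩)
    have e2 := card_insert_le v (bd G U F)
    have e3 := hg.card
    have hs : Small G U K β (insert v F) := by
      have hc : (insert v (bd G U F)).card < K := by omega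
      refine h.small (insert_subset hvU hg.small.1) hb hc ?_
      rw [disjoint_insert_right]
      exact ⟨fun hc' => h.not_mem hc hc' (mem_insert_self _ _),
        hg.small.disj h (subset_insert _ _) hc⟩
    have ht : ∀ F', insert v F ⊆ F' → Small G U K β F' → S.card ≤ (bd G U F').card := by
      intro F' h1 h2
      by_contra hc
      have := hmax F' ((subset_insert _ _).trans h1) h2 (by omega)
      exact hvF (this ▸ h1 (mem_insert_self _ _))
    have e4 := ht _ subset_rfl hs
    have e5 : bd G U (insert v F) = insert v (bd G U F) := eq_of_subset_of_card_le hb (by omega)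
    have e6 := card_le_card hb
    have u1 : ∀ x, x ≠ w → Function.update B w {v} x = B x := fun x hx =>
      Function.update_of_ne hx _ _
    have u2 : Function.update B w {v} w = {v} := Function.update_self _ _ _
    have hd : ∀ x ∈ S.erase w, Disjoint (B x) {v} := fun x hx =>
      disjoint_singleton_right.2 fun hc => hvF (hg.sub x hx hc)
    have hto : ∀ u ∈ S.erase w, J.Adj w u → Touch G {v} (B u) := fun u h1 h2 => by
      obtain ⟨z, h3, h4⟩ := hv u h1 h2
      exact ⟨v, mem_singleton_self _, z, h3, h4⟩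
    refine extend h ht0 (F := insert v F) (B := Function.update B w {v}) ⟨hs, by omega,
      fun x hx => ?_, fun x hx => ?_, fun x hx => ?_, fun x hx y hy hne => ?_, fun x hx => ?_,
      fun x hx y hy ha hxI => ?_⟩ hI ⟨hs, fun F' h1 h2 => by have := ht F' h1 h2; omega⟩
    · by_cases e : x = w
      · rw [e, u2]; simp
      · rw [u1 x e]; exact (hg.sub x (mem_erase.2 ⟨e, hx⟩)).trans (subset_insert _ _)
    · by_cases e : x = w
      · rw [e, u2]; exact Conn.singleton _
      · rw [u1 x e]; exact hg.conn x (mem_erase.2 ⟨e, hx⟩)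
    · rw [e5]
      by_cases e : x = w
      · rw [e, u2]; exact ⟨v, mem_insert_self _ _, mem_singleton_self _⟩
      · rw [u1 x e]
        obtain ⟨z, h1, h2⟩ := hg.top x (mem_erase.2 ⟨e, hx⟩)
        exact ⟨z, mem_insert_of_mem h1, h2⟩
    · by_cases e : x = w
      · subst e
        rw [u2, u1 y hne.symm]; exact (hd y (mem_erase.2 ⟨hne.symm, hy⟩)).symm
      · rw [u1 x e]
        by_cases e' : y = w
        · rw [e', u2]; exact hd x (mem_erase.2 ⟨e, hx⟩)
        · rw [u1 y e']; exact hg.disj x (mem_erase.2 ⟨e, hx⟩) y (mem_erase.2 ⟨e', hy⟩) hne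
    · rw [u1 x fun e => hwI (e ▸ hx)]; exact hg.root x hx
    · by_cases e : x = w
      · subst e
        rw [u2, u1 y ha.ne.symm]; exact hto y (mem_erase.2 ⟨ha.ne.symm, hy⟩) ha
      · rw [u1 x e]
        by_cases e' : y = w
        · subst e'
          rw [u2]; exact (hto x (mem_erase.2 ⟨e, hx⟩) ha.symm).symm
        · rw [u1 y e']; exact hg.adj x (mem_erase.2 ⟨e, hx⟩) y (mem_erase.2 ⟨e', hy⟩) ha hxI
  obtain ⟨F, B, hg, hmax⟩ := main _ J0 rfl hP.1 subset_rfl
  refine ⟨F, B, hg, hg.small, fun F' h1 h2 => by_contra fun hc => ?_⟩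
  have := hg.card
  rw [hmax F' h1 h2 (by omega)] at hc
  exact hc le_rfl

end Pool.Agent.MP_7be75d_co.Cy
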